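import Mathlib

set_option autoImplicit false

open Finset Classical

namespace Pool.Agent.helper4.Pack

variable {n : ℕ}

/-- The neighbourhood of a vertex, as a finite set. -/
noncomputable def Nb (G : SimpleGraph (Fin n)) (v : Fin n) : Finset (Fin n) :=
  univ.filter (fun w => G.Adj v w)

/-- The degree. -/
noncomputable def dg (G : SimpleGraph (Fin n)) (v : Fin n) : ℕ := (Nb G v).card

lemma mem_Nb {G : SimpleGraph (Fin n)} {v w : Fin n} : w ∈ Nb G v ↔ G.Adj v w := by
  simp [Nb]

/-- Change a permutation so that `a` is sent to `w`. -/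
def move (σ : Equiv.Perm (Fin n)) (a w : Fin n) : Equiv.Perm (Fin n) :=
  (Equiv.swap a (σ.symm w)).trans σ

lemma move_self (σ : Equiv.Perm (Fin n)) (a w : Fin n) : move σ a w a = w := by
  simp [move]

lemma move_of_ne {σ : Equiv.Perm (Fin n)} {a w u : Fin n} (hu : u ≠ a) (hw : σ u ≠ w) :
    move σ a w u = σ u := by
  have h2 : u ≠ σ.symm w := by
    rintro rfl
    exact hw (by simp)
  simp [move, Equiv.swap_apply_of_ne_of_ne hu h2]

lemma exists_notMem_of_card_lt {B : Finset (Fin n)} (h : B.card < n) : ∃ w, w ∉ B := by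
  by_contra hcon
  push Not at hcon
  have : B = univ := Finset.eq_univ_iff_forall.2 hcon
  rw [this, Finset.card_univ, Fintype.card_fin] at h
  exact lt_irrefl _ h

/-- Number of vertices of degree at least `D`. -/
lemma card_high_le {G : SimpleGraph (Fin n)} {D M : ℕ} (h : ∑ v, dg G v ≤ M) :
    D * (univ.filter (fun v => D ≤ dg G v)).card ≤ M := by
  calc D * (univ.filter (fun v => D ≤ dg G v)).card
      = ∑ v ∈ univ.filter (fun v => D ≤ dg G v), D := by
        rw [Finset.sum_const, smul_eq_mul, mul_comm]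
    _ ≤ ∑ v ∈ univ.filter (fun v => D ≤ dg G v), dg G v :=
        Finset.sum_le_sum fun v hv => (Finset.mem_filter.1 hv).2
    _ ≤ ∑ v, dg G v := Finset.sum_le_sum_of_subset (Finset.filter_subset _ _)
    _ ≤ M := h

/-- The load of a location `b`: the total degree of placed vertices of `T` next to `b`. -/
noncomputable def load (H G : SimpleGraph (Fin n)) (σ : Equiv.Perm (Fin n)) (T : Finset (Fin n))
    (b : Fin n) : ℕ := ∑ a ∈ T.filter (fun a => H.Adj (σ a) b), dg G a

/-- Total load. -/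
lemma sum_load_le {H G : SimpleGraph (Fin n)} {σ : Equiv.Perm (Fin n)} {T : Finset (Fin n)}
    {D M : ℕ} (hT : ∀ a ∈ T, dg H (σ a) ≤ D) (hG : ∑ v, dg G v ≤ M) :
    ∑ b, load H G σ T b ≤ D * M := by
  calc ∑ b, load H G σ T b = ∑ b, ∑ a ∈ T, if H.Adj (σ a) b then dg G a else 0 := by
        refine Finset.sum_congr rfl fun b _ => ?_
        rw [load, Finset.sum_filter]
    _ = ∑ a ∈ T, ∑ b, if H.Adj (σ a) b then dg G a else 0 := Finset.sum_comm
    _ = ∑ a ∈ T, dg H (σ a) * dg G a := by
        refine Finset.sum_congr rfl fun a _ => ?_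
        rw [← Finset.sum_filter, Finset.sum_const, smul_eq_mul]
        rfl
    _ ≤ ∑ a ∈ T, D * dg G a :=
        Finset.sum_le_sum fun a ha => Nat.mul_le_mul_right _ (hT a ha)
    _ = D * ∑ a ∈ T, dg G a := by rw [Finset.mul_sum]
    _ ≤ D * ∑ v, dg G v := Nat.mul_le_mul_left _ (Finset.sum_le_sum_of_subset (Finset.subset_univ _))
    _ ≤ D * M := Nat.mul_le_mul_left _ hG

/-- The standing numerical assumptions of the bulk lemma. -/
structure BulkHyp (H G : SimpleGraph (Fin n)) (P : Finset (Fin n)) (σ₀ : Equiv.Perm (Fin n))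
    (D δ : ℕ) : Prop where
  npos : 0 < n
  highH : 8 * (univ.filter (fun v => D ≤ dg H v)).card ≤ n
  highG : 8 * (univ.filter (fun v => D ≤ dg G v)).card ≤ n
  sumG : ∑ v, dg G v ≤ 2 * n
  degH : ∀ v, dg H v ≤ δ
  degG : ∀ v, dg G v ≤ δ
  hδ : 136 * (D * δ) ≤ n
  hδ' : 136 * δ ≤ n
  cardP : 16 * P.card ≤ n
  sumPH : 16 * ∑ p ∈ P, dg H (σ₀ p) ≤ n
  sumPG : 16 * ∑ p ∈ P, dg G p ≤ n
  noconf : ∀ u ∈ P, ∀ v ∈ P, G.Adj u v → ¬ H.Adj (σ₀ u) (σ₀ v)

lemma card_biUnion_le_mul {s : Finset (Fin n)} {f : Fin n → Finset (Fin n)} {c : ℕ}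
    (h : ∀ x ∈ s, (f x).card ≤ c) : (s.biUnion f).card ≤ s.card * c :=
  Finset.card_biUnion_le_card_mul _ _ _ h

lemma stage1 {H G : SimpleGraph (Fin n)} {P : Finset (Fin n)} {σ₀ : Equiv.Perm (Fin n)}
    {D δ : ℕ} (hyp : BulkHyp H G P σ₀ D δ) (T : Finset (Fin n))
    (hT : ∀ a ∈ T, a ∉ P ∧ D ≤ dg G a) :
    ∃ σ : Equiv.Perm (Fin n), (∀ u ∈ P, σ u = σ₀ u) ∧ (∀ a ∈ T, dg H (σ a) < D) ∧
      (∀ u ∈ P ∪ T, ∀ v ∈ P ∪ T, G.Adj u v → ¬ H.Adj (σ u) (σ v)) ∧
      ∀ b, 4 * load H G σ T b ≤ n := by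
  induction T using Finset.induction_on with
  | empty =>
    refine ⟨σ₀, fun _ _ => rfl, by simp, ?_, ?_⟩
    · simpa using hyp.noconf
    · intro b; simp [load]
  | insert a T haT ih =>
    obtain ⟨σ, h1, h2, h3, h4⟩ := ih fun b hb => hT b (Finset.mem_insert_of_mem hb)
    have haP : a ∉ P := (hT a (Finset.mem_insert_self _ _)).1
    set ovr : Finset (Fin n) := univ.filter (fun b => n ≤ 8 * load H G σ T b) with hovr
    set B1 := (P ∪ T).image σ with hB1
    set B2 := univ.filter (fun v => D ≤ dg H v) with hB2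
    set B3 := P.biUnion (fun u => Nb H (σ u)) with hB3
    set B4 := (T.filter (fun u => G.Adj a u)).biUnion (fun u => Nb H (σ u)) with hB4
    set B5 := ovr.biUnion (fun b => Nb H b) with hB5
    have c1 : B1.card ≤ P.card + T.card := (Finset.card_image_le).trans (Finset.card_union_le _ _)
    have cT : 8 * T.card ≤ n := by
      refine le_trans (Nat.mul_le_mul_left 8 (Finset.card_le_card ?_)) hyp.highG
      intro b hb
      exact Finset.mem_filter.2 ⟨Finset.mem_univ _, (hT b (Finset.mem_insert_of_mem hb)).2⟩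
    have c3 : 16 * B3.card ≤ n := by
      refine le_trans (Nat.mul_le_mul_left 16 ?_) hyp.sumPH
      refine Finset.card_biUnion_le.trans (le_of_eq ?_)
      exact Finset.sum_congr rfl fun u hu => by rw [h1 u hu]; rfl
    have c4 : B4.card ≤ δ * D := by
      refine (card_biUnion_le_mul (c := D) fun u hu => ?_).trans (Nat.mul_le_mul_right _ ?_)
      · exact (h2 u (Finset.mem_filter.1 hu).1).le
      · refine le_trans (Finset.card_le_card ?_) (hyp.degG a)
        intro u hu
        exact mem_Nb.2 (Finset.mem_filter.1 hu).2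
    have covr : ovr.card ≤ 16 * D := by
      have e1 : ovr.card * n ≤ 8 * ∑ b, load H G σ T b := by
        calc ovr.card * n = ∑ b ∈ ovr, n := by rw [Finset.sum_const, smul_eq_mul]
          _ ≤ ∑ b ∈ ovr, 8 * load H G σ T b :=
              Finset.sum_le_sum fun b hb => (Finset.mem_filter.1 hb).2
          _ ≤ ∑ b, 8 * load H G σ T b := Finset.sum_le_sum_of_subset (Finset.subset_univ _)
          _ = 8 * ∑ b, load H G σ T b := by rw [Finset.mul_sum]
      have e2 := sum_load_le (T := T) (D := D) (fun a ha => (h2 a ha).le) hyp.sumG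
      have e3 : ovr.card * n ≤ (16 * D) * n := by
        calc ovr.card * n ≤ 8 * (D * (2 * n)) := e1.trans (Nat.mul_le_mul_left 8 e2)
          _ = (16 * D) * n := by ring
      exact Nat.le_of_mul_le_mul_right e3 hyp.npos
    have c5 : B5.card ≤ (16 * D) * δ := by
      refine (card_biUnion_le_mul (c := δ) fun u _ => hyp.degH u).trans ?_
      exact Nat.mul_le_mul_right _ covr
    have ctot : (B1 ∪ B2 ∪ B3 ∪ B4 ∪ B5).card < n := by
      have e1 := Finset.card_union_le (B1 ∪ B2 ∪ B3 ∪ B4) B5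
      have e2 := Finset.card_union_le (B1 ∪ B2 ∪ B3) B4
      have e3 := Finset.card_union_le (B1 ∪ B2) B3
      have e4 := Finset.card_union_le B1 B2
      have e5 : 8 * B2.card ≤ n := hyp.highH
      have e6 := hyp.cardP
      have e7 := hyp.hδ
      have e8 := hyp.npos
      have e9 : (16 * D) * δ = 16 * (D * δ) := by ring
      have e10 : δ * D = D * δ := by ring
      rw [e9] at c5
      rw [e10] at c4
      omega
    obtain ⟨w, hw⟩ := exists_notMem_of_card_lt ctot
    simp only [Finset.mem_union, not_or] at hw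
    obtain ⟨⟨⟨⟨hw1, hw2⟩, hw3⟩, hw4⟩, hw5⟩ := hw
    have hne : ∀ u ∈ P ∪ T, u ≠ a := by
      intro u hu
      rintro rfl
      rcases Finset.mem_union.1 hu with h | h
      · exact haP h
      · exact haT h
    have hnew : ∀ u ∈ P ∪ T, move σ a w u = σ u := fun u hu =>
      move_of_ne (hne u hu) fun h => hw1 (Finset.mem_image.2 ⟨u, hu, h⟩)
    have hwD : dg H w < D := by
      by_contra h
      exact hw2 (Finset.mem_filter.2 ⟨Finset.mem_univ _, not_lt.1 h⟩)
    have hwadj : ∀ u ∈ P ∪ T, G.Adj a u → ¬ H.Adj (σ u) w := by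
      intro u hu hau hadj
      rcases Finset.mem_union.1 hu with h | h
      · exact hw3 (Finset.mem_biUnion.2 ⟨u, h, mem_Nb.2 hadj⟩)
      · exact hw4 (Finset.mem_biUnion.2 ⟨u, Finset.mem_filter.2 ⟨h, hau⟩, mem_Nb.2 hadj⟩)
    refine ⟨move σ a w, ?_, ?_, ?_, ?_⟩
    · intro u hu
      rw [hnew u (Finset.mem_union_left _ hu), h1 u hu]
    · intro b hb
      rcases Finset.mem_insert.1 hb with rfl | hb
      · rw [move_self]; exact hwD
      · rw [hnew b (Finset.mem_union_right _ hb)]; exact h2 b hb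
    · intro u hu v hv huv
      have hu' : u = a ∨ u ∈ P ∪ T := by
        simp only [Finset.mem_union, Finset.mem_insert] at hu ⊢; tauto
      have hv' : v = a ∨ v ∈ P ∪ T := by
        simp only [Finset.mem_union, Finset.mem_insert] at hv ⊢; tauto
      rcases hu' with rfl | hu' <;> rcases hv' with rfl | hv'
      · exact absurd huv (G.loopless.irrefl _)
      · rw [move_self, hnew v hv']
        intro h
        exact hwadj v hv' huv h.symm
      · rw [move_self, hnew u hu']
        exact hwadj u hu' huv.symm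
      · rw [hnew u hu', hnew v hv']
        exact h3 u hu' v hv' huv
    · intro b
      have e1 : load H G (move σ a w) (insert a T) b =
          (if H.Adj w b then dg G a else 0) + load H G σ T b := by
        rw [load, Finset.filter_insert, move_self]
        have e2 : T.filter (fun a' => H.Adj (move σ a w a') b) = T.filter (fun a' => H.Adj (σ a') b) :=
          Finset.filter_congr fun x hx => by rw [hnew x (Finset.mem_union_right _ hx)]
        rw [e2]
        split_ifs with h
        · rw [Finset.sum_insert (fun h' => haT (Finset.mem_filter.1 h').1)]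
          rfl
        · rw [zero_add]; rfl
      rw [e1]
      split_ifs with h
      · have hb : b ∉ ovr := fun hb => hw5 (Finset.mem_biUnion.2 ⟨b, hb, mem_Nb.2 h.symm⟩)
        have hb' : 8 * load H G σ T b < n := by
          by_contra h'
          exact hb (Finset.mem_filter.2 ⟨Finset.mem_univ _, not_lt.1 h'⟩)
        have := hyp.degG a
        have := hyp.hδ'
        omega
      · rw [zero_add]; exact h4 b

lemma stage2 {H G : SimpleGraph (Fin n)} {P : Finset (Fin n)} {σ₀ σ : Equiv.Perm (Fin n)}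
    {D δ : ℕ} (hyp : BulkHyp H G P σ₀ D δ) {A : Finset (Fin n)}
    (hA : ∀ a, a ∉ P → D ≤ dg G a → a ∈ A) (hA' : ∀ a ∈ A, D ≤ dg G a)
    (h1 : ∀ u ∈ P, σ u = σ₀ u) (h2 : ∀ a ∈ A, dg H (σ a) < D)
    (h3 : ∀ u ∈ P ∪ A, ∀ v ∈ P ∪ A, G.Adj u v → ¬ H.Adj (σ u) (σ v))
    (h4 : ∀ b, 4 * load H G σ A b ≤ n)
    (B : Finset (Fin n)) (hB : ∀ b ∈ B, D ≤ dg H b ∧ ∀ p ∈ P, σ₀ p ≠ b) :
    ∃ τ : Equiv.Perm (Fin n), (∀ u ∈ P ∪ A, τ u = σ u) ∧
      (∀ u ∈ P ∪ A ∪ B.image τ.symm, ∀ v ∈ P ∪ A ∪ B.image τ.symm,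
        G.Adj u v → ¬ H.Adj (τ u) (τ v)) := by
  induction B using Finset.induction_on with
  | empty => exact ⟨σ, fun _ _ => rfl, by simpa using h3⟩
  | insert b B hbB ih =>
    obtain ⟨τ, e1, e2⟩ := ih fun b' hb' => hB b' (Finset.mem_insert_of_mem hb')
    have hout : ∀ b' ∈ insert b B, τ.symm b' ∉ P ∪ A := by
      intro b' hb' hu
      have hτ : τ (τ.symm b') = b' := by simp
      rw [e1 _ hu] at hτ
      rcases Finset.mem_union.1 hu with h | h
      · rw [h1 _ h] at hτ
        exact (hB b' hb').2 _ h hτ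
      · have h5 := h2 _ h
        rw [hτ] at h5
        exact absurd (hB b' hb').1 (not_le.2 h5)
    set I := B.image τ.symm with hI
    set B1 := P ∪ A ∪ I with hB1
    set B3 := P.biUnion (fun u => Nb G u) with hB3
    set B4 := (A.filter (fun u => H.Adj (σ u) b)).biUnion (fun u => Nb G u) with hB4
    set B5 := (I.filter (fun u => H.Adj b (τ u))).biUnion (fun u => Nb G u) with hB5
    have c1 : B1.card ≤ P.card + A.card + B.card := by
      refine (Finset.card_union_le _ _).trans ?_
      exact add_le_add (Finset.card_union_le _ _) Finset.card_image_le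
    have cA : 8 * A.card ≤ n := by
      refine le_trans (Nat.mul_le_mul_left 8 (Finset.card_le_card ?_)) hyp.highG
      intro a ha
      exact Finset.mem_filter.2 ⟨Finset.mem_univ _, hA' a ha⟩
    have cB : 8 * B.card ≤ n := by
      refine le_trans (Nat.mul_le_mul_left 8 (Finset.card_le_card ?_)) hyp.highH
      intro a ha
      exact Finset.mem_filter.2 ⟨Finset.mem_univ _, (hB a (Finset.mem_insert_of_mem ha)).1⟩
    have c3 : 16 * B3.card ≤ n := by
      refine le_trans (Nat.mul_le_mul_left 16 ?_) hyp.sumPG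
      exact Finset.card_biUnion_le
    have c4 : 4 * B4.card ≤ n := by
      refine le_trans (Nat.mul_le_mul_left 4 ?_) (h4 b)
      exact Finset.card_biUnion_le
    have c5 : B5.card ≤ δ * D := by
      refine (card_biUnion_le_mul (c := D) fun u hu => ?_).trans (Nat.mul_le_mul_right _ ?_)
      · obtain ⟨b', hb', rfl⟩ := Finset.mem_image.1 (Finset.mem_filter.1 hu).1
        have h5 := hout b' (Finset.mem_insert_of_mem hb')
        by_contra h6
        have h7 : D ≤ dg G (τ.symm b') := (not_le.1 h6).le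
        rw [Finset.mem_union, not_or] at h5
        exact h5.2 (hA _ h5.1 h7)
      · calc (I.filter (fun u => H.Adj b (τ u))).card
            = ((I.filter (fun u => H.Adj b (τ u))).image τ).card :=
              (Finset.card_image_of_injective _ τ.injective).symm
          _ ≤ (Nb H b).card := by
              refine Finset.card_le_card ?_
              intro w hw
              obtain ⟨u, hu, rfl⟩ := Finset.mem_image.1 hw
              exact mem_Nb.2 (Finset.mem_filter.1 hu).2
          _ ≤ δ := hyp.degH b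
    have ctot : (B1 ∪ B3 ∪ B4 ∪ B5).card < n := by
      have f1 := Finset.card_union_le (B1 ∪ B3 ∪ B4) B5
      have f2 := Finset.card_union_le (B1 ∪ B3) B4
      have f3 := Finset.card_union_le B1 B3
      have f6 := hyp.cardP
      have f7 := hyp.hδ
      have f8 := hyp.npos
      have f10 : δ * D = D * δ := by ring
      rw [f10] at c5
      omega
    obtain ⟨x, hx⟩ := exists_notMem_of_card_lt ctot
    simp only [Finset.mem_union, not_or] at hx
    obtain ⟨⟨⟨hx1, hx3⟩, hx4⟩, hx5⟩ := hx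
    have hne : ∀ u ∈ B1, u ≠ x := by
      rintro u hu rfl
      exact hx1 hu
    have hτb : ∀ u ∈ B1, τ u ≠ b := by
      intro u hu h
      have h6 : u = τ.symm b := by rw [← h]; simp
      rcases Finset.mem_union.1 hu with h5 | h5
      · exact hout b (Finset.mem_insert_self _ _) (h6 ▸ h5)
      · obtain ⟨b', hb', rfl⟩ := Finset.mem_image.1 h5
        simp at h
        exact hbB (h ▸ hb')
    have hnew : ∀ u ∈ B1, move τ x b u = τ u := fun u hu => move_of_ne (hne u hu) (hτb u hu)
    have hsub : P ∪ A ∪ (insert b B).image (move τ x b).symm ⊆ insert x B1 := by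
      intro u hu
      rcases Finset.mem_union.1 hu with h5 | h5
      · exact Finset.mem_insert_of_mem (Finset.mem_union_left _ h5)
      · obtain ⟨b', hb', rfl⟩ := Finset.mem_image.1 h5
        rcases Finset.mem_insert.1 hb' with rfl | hb'
        · have : (move τ x b').symm b' = x := by
            rw [Equiv.symm_apply_eq, move_self]
          rw [this]; exact Finset.mem_insert_self _ _
        · have hmem : τ.symm b' ∈ B1 :=
            Finset.mem_union_right _ (Finset.mem_image_of_mem _ hb')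
          have : (move τ x b).symm b' = τ.symm b' := by
            rw [Equiv.symm_apply_eq, hnew _ hmem]; simp
          rw [this]; exact Finset.mem_insert_of_mem hmem
    have hxadj : ∀ u ∈ B1, H.Adj b (τ u) → ¬ G.Adj u x := by
      intro u hu hadj hux
      rcases Finset.mem_union.1 hu with h5 | h5
      · rcases Finset.mem_union.1 h5 with h6 | h6
        · exact hx3 (Finset.mem_biUnion.2 ⟨u, h6, mem_Nb.2 hux⟩)
        · rw [e1 u h5] at hadj
          exact hx4 (Finset.mem_biUnion.2 ⟨u, Finset.mem_filter.2 ⟨h6, hadj.symm⟩, mem_Nb.2 hux⟩)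
      · exact hx5 (Finset.mem_biUnion.2 ⟨u, Finset.mem_filter.2 ⟨h5, hadj⟩, mem_Nb.2 hux⟩)
    refine ⟨move τ x b, ?_, ?_⟩
    · intro u hu
      rw [hnew u (Finset.mem_union_left _ hu), e1 u hu]
    · intro u hu v hv huv
      have hu' := Finset.mem_insert.1 (hsub hu)
      have hv' := Finset.mem_insert.1 (hsub hv)
      rcases hu' with rfl | hu' <;> rcases hv' with rfl | hv'
      · exact absurd huv (G.loopless.irrefl _)
      · rw [move_self, hnew v hv']
        intro h
        exact hxadj v hv' h huv.symm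
      · rw [move_self, hnew u hu']
        intro h
        exact hxadj u hu' h.symm huv
      · rw [hnew u hu', hnew v hv']
        exact e2 u hu' v hv' huv

/-- Conflicts of a placement. -/
noncomputable def conf (H G : SimpleGraph (Fin n)) (τ : Equiv.Perm (Fin n)) :
    Finset (Fin n × Fin n) :=
  univ.filter (fun p => G.Adj p.1 p.2 ∧ H.Adj (τ p.1) (τ p.2))

lemma stage4 {H G : SimpleGraph (Fin n)} {F : Finset (Fin n)} {σ : Equiv.Perm (Fin n)}
    {D δ : ℕ} (hn : 0 < n) (hF : 16 * F.card ≤ 5 * n) (hD : 136 * (D * δ) ≤ n) (hD' : 136 * D ≤ n)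
    (degH : ∀ v, dg H v ≤ δ) (degG : ∀ v, dg G v ≤ δ)
    (hconf : ∀ u ∈ F, ∀ v ∈ F, G.Adj u v → ¬ H.Adj (σ u) (σ v))
    (hlow : ∀ x, x ∉ F → dg G x ≤ D) (hlow' : ∀ x, x ∉ F → dg H (σ x) ≤ D) :
    ∃ τ : Equiv.Perm (Fin n), (∀ u ∈ F, τ u = σ u) ∧ ∀ u v, G.Adj u v → ¬ H.Adj (τ u) (τ v) := by
  have hne : (univ.filter (fun τ : Equiv.Perm (Fin n) => ∀ u ∈ F, τ u = σ u)).Nonempty :=
    ⟨σ, by simp⟩
  obtain ⟨τ, hτ, hmin⟩ := Finset.exists_min_image _ (fun τ => (conf H G τ).card) hne
  have hτF : ∀ u ∈ F, τ u = σ u := (Finset.mem_filter.1 hτ).2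
  refine ⟨τ, hτF, ?_⟩
  by_contra hcon
  push Not at hcon
  obtain ⟨x₀, y₀, hxy₀, hH₀⟩ := hcon
  -- a conflict with `x ∉ F`
  obtain ⟨x, y, hxF, hxy, hH⟩ : ∃ x y, x ∉ F ∧ G.Adj x y ∧ H.Adj (τ x) (τ y) := by
    by_cases hx : x₀ ∈ F
    · by_cases hy : y₀ ∈ F
      · exfalso
        apply hconf x₀ hx y₀ hy hxy₀
        rwa [← hτF x₀ hx, ← hτF y₀ hy]
      · exact ⟨y₀, x₀, hy, hxy₀.symm, hH₀.symm⟩
    · exact ⟨x₀, y₀, hx, hxy₀, hH₀⟩
  -- low degree of the location
  have hlowτ : ∀ z, z ∉ F → dg H (τ z) ≤ D := by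
    intro z hz
    have h1 : σ.symm (τ z) ∉ F := by
      intro h
      have h2 := hτF _ h
      rw [Equiv.apply_symm_apply] at h2
      have h3 := τ.injective h2
      rw [h3] at h
      exact hz h
    have := hlow' _ h1
    rwa [Equiv.apply_symm_apply] at this
  set B2 := ((Nb G x).biUnion (fun z => Nb H (τ z))).image τ.symm with hB2
  set B3 := ((Nb H (τ x)).image τ.symm).biUnion (fun z => Nb G z) with hB3
  set B4 := Nb G x with hB4
  have c2 : B2.card ≤ D * δ := by
    refine Finset.card_image_le.trans ?_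
    refine (card_biUnion_le_mul (c := δ) fun u _ => degH _).trans ?_
    exact Nat.mul_le_mul_right _ (hlow x hxF)
  have c3 : B3.card ≤ D * δ := by
    refine (card_biUnion_le_mul (c := δ) fun u _ => degG _).trans ?_
    exact Nat.mul_le_mul_right _ (Finset.card_image_le.trans (hlowτ x hxF))
  have c4 : B4.card ≤ D := hlow x hxF
  have ctot : (F ∪ B2 ∪ B3 ∪ B4 ∪ {x}).card < n := by
    have f1 := Finset.card_union_le (F ∪ B2 ∪ B3 ∪ B4) {x}
    have f2 := Finset.card_union_le (F ∪ B2 ∪ B3) B4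
    have f3 := Finset.card_union_le (F ∪ B2) B3
    have f4 := Finset.card_union_le F B2
    have f5 : ({x} : Finset (Fin n)).card = 1 := Finset.card_singleton x
    have hx1 : 1 ≤ D := by
      have : 0 < (Nb G x).card := Finset.card_pos.2 ⟨y, mem_Nb.2 hxy⟩
      exact this.trans_le c4
    omega
  obtain ⟨x', hx'⟩ := exists_notMem_of_card_lt ctot
  simp only [Finset.mem_union, not_or, Finset.mem_singleton] at hx'
  obtain ⟨⟨⟨⟨hx'F, hx'2⟩, hx'3⟩, hx'4⟩, hx'x⟩ := hx'
  have ha : ∀ z, G.Adj x z → ¬ H.Adj (τ z) (τ x') := by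
    intro z hz h
    apply hx'2
    refine Finset.mem_image.2 ⟨τ x', Finset.mem_biUnion.2 ⟨z, mem_Nb.2 hz, mem_Nb.2 h⟩, by simp⟩
  have hb : ∀ z, H.Adj (τ x) (τ z) → ¬ G.Adj z x' := by
    intro z hz h
    apply hx'3
    refine Finset.mem_biUnion.2 ⟨z, Finset.mem_image.2 ⟨τ z, mem_Nb.2 hz, by simp⟩, mem_Nb.2 h⟩
  have hc : ¬ G.Adj x x' := fun h => hx'4 (mem_Nb.2 h)
  -- swap
  set τ' := (Equiv.swap x x').trans τ with hτ'
  have t1 : τ' x = τ x' := by simp [hτ']
  have t2 : τ' x' = τ x := by simp [hτ']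
  have t3 : ∀ z, z ≠ x → z ≠ x' → τ' z = τ z := by
    intro z h1 h2
    simp [hτ', Equiv.swap_apply_of_ne_of_ne h1 h2]
  have hτ'F : ∀ u ∈ F, τ' u = σ u := by
    intro u hu
    rw [t3 u (fun h => hxF (h ▸ hu)) (fun h => hx'F (h ▸ hu)), hτF u hu]
  have hlt : (conf H G τ').card < (conf H G τ).card := by
    apply Finset.card_lt_card
    rw [Finset.ssubset_iff_of_subset]
    · refine ⟨(x, y), ?_, ?_⟩
      · simp [conf, hxy, hH]
      · simp only [conf, Finset.mem_filter, Finset.mem_univ, true_and, not_and]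
        intro _ h
        have hyx : y ≠ x := hxy.ne'
        have hyx' : y ≠ x' := by
          rintro rfl; exact hc hxy
        rw [t1, t3 y hyx hyx'] at h
        exact ha y hxy h.symm
    · rintro ⟨u, v⟩ huv
      simp only [conf, Finset.mem_filter, Finset.mem_univ, true_and] at huv ⊢
      obtain ⟨h1, h2⟩ := huv
      refine ⟨h1, ?_⟩
      -- no conflict of `τ'` involves `x` or `x'`
      have key : ∀ u v, G.Adj u v → H.Adj (τ' u) (τ' v) → u ≠ x ∧ u ≠ x' := by
        intro u v h1 h2
        constructor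
        · rintro rfl
          have hv1 : v ≠ u := h1.ne'
          have hv2 : v ≠ x' := by
            rintro rfl; exact hc h1
          rw [t1, t3 v hv1 hv2] at h2
          exact ha v h1 h2.symm
        · rintro rfl
          have hv1 : v ≠ u := h1.ne'
          have hv2 : v ≠ x := by
            rintro rfl; exact hc h1.symm
          rw [t2, t3 v hv2 hv1] at h2
          exact hb v h2 h1.symm
      obtain ⟨k1, k2⟩ := key u v h1 h2
      obtain ⟨k3, k4⟩ := key v u h1.symm h2.symm
      rwa [t3 u k1 k2, t3 v k3 k4] at h2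
  exact absurd (hmin τ' (Finset.mem_filter.2 ⟨Finset.mem_univ _, hτ'F⟩)) (not_le.2 hlt)

/-- The bulk lemma: a conflict-free placement of few vertices extends to a packing of two sparse
graphs of small maximum degree. -/
theorem bulk {H G : SimpleGraph (Fin n)} {P : Finset (Fin n)} {σ₀ : Equiv.Perm (Fin n)}
    {D δ : ℕ} (hyp : BulkHyp H G P σ₀ D δ) (hD' : 136 * D ≤ n) :
    ∃ σ : Equiv.Perm (Fin n), (∀ p ∈ P, σ p = σ₀ p) ∧
      ∀ u v, G.Adj u v → ¬ H.Adj (σ u) (σ v) := by
  set A : Finset (Fin n) := univ.filter (fun a => a ∉ P ∧ D ≤ dg G a) with hA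
  obtain ⟨σ, h1, h2, h3, h4⟩ := stage1 hyp A (fun a ha => (Finset.mem_filter.1 ha).2)
  set B : Finset (Fin n) := univ.filter (fun b => D ≤ dg H b ∧ ∀ p ∈ P, σ₀ p ≠ b) with hB
  obtain ⟨τ, e1, e2⟩ := stage2 hyp (A := A)
    (fun a ha ha' => Finset.mem_filter.2 ⟨Finset.mem_univ _, ha, ha'⟩)
    (fun a ha => (Finset.mem_filter.1 ha).2.2) h1 h2 h3 h4 B
    (fun b hb => (Finset.mem_filter.1 hb).2)
  set F := P ∪ A ∪ B.image τ.symm with hF
  have cA : 8 * A.card ≤ n := by
    refine le_trans (Nat.mul_le_mul_left 8 (Finset.card_le_card ?_)) hyp.highG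
    intro a ha
    exact Finset.mem_filter.2 ⟨Finset.mem_univ _, (Finset.mem_filter.1 ha).2.2⟩
  have cB : 8 * B.card ≤ n := by
    refine le_trans (Nat.mul_le_mul_left 8 (Finset.card_le_card ?_)) hyp.highH
    intro a ha
    exact Finset.mem_filter.2 ⟨Finset.mem_univ _, (Finset.mem_filter.1 ha).2.1⟩
  have cF : 16 * F.card ≤ 5 * n := by
    have f1 : F.card ≤ P.card + A.card + B.card := by
      refine (Finset.card_union_le _ _).trans ?_
      exact add_le_add (Finset.card_union_le _ _) Finset.card_image_le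
    have f2 := hyp.cardP
    omega
  obtain ⟨ρ, r1, r2⟩ := stage4 (F := F) (σ := τ) (D := D) (δ := δ) hyp.npos cF hyp.hδ hD'
    hyp.degH hyp.degG e2
    (by
      intro x hx
      by_contra h
      apply hx
      refine Finset.mem_union_left _ ?_
      by_cases hxP : x ∈ P
      · exact Finset.mem_union_left _ hxP
      · exact Finset.mem_union_right _
          (Finset.mem_filter.2 ⟨Finset.mem_univ _, hxP, (not_le.1 h).le⟩))
    (by
      intro x hx
      by_contra h
      apply hx
      by_cases hp : ∀ p ∈ P, σ₀ p ≠ τ x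
      · refine Finset.mem_union_right _ (Finset.mem_image.2 ⟨τ x, ?_, by simp⟩)
        exact Finset.mem_filter.2 ⟨Finset.mem_univ _, (not_le.1 h).le, hp⟩
      · push Not at hp
        obtain ⟨p, hpP, hpx⟩ := hp
        have : τ p = τ x := by
          rw [e1 p (Finset.mem_union_left _ hpP), h1 p hpP, hpx]
        rw [← τ.injective this]
        exact Finset.mem_union_left _ (Finset.mem_union_left _ hpP))
  refine ⟨ρ, fun p hp => ?_, r2⟩
  have hpF : p ∈ F := Finset.mem_union_left _ (Finset.mem_union_left _ hp)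
  rw [r1 p hpF, e1 p (Finset.mem_union_left _ hp), h1 p hp]

end Pool.Agent.helper4.Pack
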