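import Mathlib
import Pool.Agent.helper4.Pack.Bulk

set_option autoImplicit false

open Finset Classical

namespace Pool.Agent.helper4.Pack

variable {n : ℕ}

/-- A system of independent vertices of degree at most one without common neighbours. -/
structure LeafSys (G : SimpleGraph (Fin n)) (X : Finset (Fin n)) : Prop where
  deg : ∀ x ∈ X, dg G x ≤ 1
  indep : ∀ x ∈ X, ∀ x' ∈ X, ¬ G.Adj x x'
  nocommon : ∀ x ∈ X, ∀ x' ∈ X, x ≠ x' → ∀ w, G.Adj x w → ¬ G.Adj x' w

/-- Delete all edges at `v`. -/
def cut (G : SimpleGraph (Fin n)) (v : Fin n) : SimpleGraph (Fin n) where
  Adj a b := G.Adj a b ∧ a ≠ v ∧ b ≠ v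
  symm := ⟨fun _ _ h => ⟨h.1.symm, h.2.2, h.2.1⟩⟩
  loopless := ⟨fun _ h => G.loopless.irrefl _ h.1⟩

lemma cut_adj {G : SimpleGraph (Fin n)} {v a b : Fin n} :
    (cut G v).Adj a b ↔ G.Adj a b ∧ a ≠ v ∧ b ≠ v := Iff.rfl

lemma dg_cut_le (G : SimpleGraph (Fin n)) (v u : Fin n) : dg (cut G v) u ≤ dg G u := by
  refine Finset.card_le_card fun w hw => ?_
  exact mem_Nb.2 (cut_adj.1 (mem_Nb.1 hw)).1

lemma peel_aux (m : ℕ) : ∀ (A : Finset (Fin n)) (G : SimpleGraph (Fin n)), A.card = m →
    (∀ u v, G.Adj u v → u ∈ A) →
    ∃ X : Finset (Fin n), X ⊆ A ∧ LeafSys G X ∧ 2 * A.card ≤ 2 * X.card + ∑ v, dg G v := by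
  induction m with
  | zero =>
    intro A G hA _
    exact ⟨∅, by simp, ⟨by simp, by simp, by simp⟩, by simp [hA]⟩
  | succ m ih =>
    intro A G hA hsupp
    by_cases hall : ∀ v ∈ A, 2 ≤ dg G v
    · refine ⟨∅, by simp, ⟨by simp, by simp, by simp⟩, ?_⟩
      calc 2 * A.card = ∑ v ∈ A, 2 := by rw [Finset.sum_const, smul_eq_mul, mul_comm]
        _ ≤ ∑ v ∈ A, dg G v := Finset.sum_le_sum hall
        _ ≤ ∑ v, dg G v := Finset.sum_le_sum_of_subset (Finset.subset_univ _)
        _ ≤ _ := Nat.le_add_left _ _
    · push Not at hall
      obtain ⟨v, hvA, hv⟩ := hall
      have hAe : (A.erase v).card = m := by rw [Finset.card_erase_of_mem hvA, hA]; rfl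
      rcases Nat.eq_zero_or_pos (dg G v) with h0 | h0
      · -- isolated vertex
        have hiso : ∀ w, ¬ G.Adj v w := by
          intro w hw
          have : Nb G v = ∅ := Finset.card_eq_zero.1 h0
          have h1 : w ∈ Nb G v := mem_Nb.2 hw
          rw [this] at h1
          simp at h1
        obtain ⟨X, hX, hs, hc⟩ := ih (A.erase v) G hAe (fun u w huw => by
          refine Finset.mem_erase.2 ⟨?_, hsupp u w huw⟩
          rintro rfl
          exact hiso w huw)
        have hvX : v ∉ X := fun h => (Finset.mem_erase.1 (hX h)).1 rfl
        refine ⟨insert v X, ?_, ⟨?_, ?_, ?_⟩, ?_⟩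
        · intro x hx
          rcases Finset.mem_insert.1 hx with rfl | hx
          · exact hvA
          · exact Finset.mem_of_mem_erase (hX hx)
        · intro x hx
          rcases Finset.mem_insert.1 hx with rfl | hx
          · omega
          · exact hs.deg x hx
        · intro x hx x' hx' hadj
          rcases Finset.mem_insert.1 hx with rfl | hx
          · exact hiso _ hadj
          · rcases Finset.mem_insert.1 hx' with rfl | hx'
            · exact hiso _ hadj.symm
            · exact hs.indep x hx x' hx' hadj
        · intro x hx x' hx' hne w hw hw'
          rcases Finset.mem_insert.1 hx with rfl | hx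
          · exact hiso _ hw
          · rcases Finset.mem_insert.1 hx' with rfl | hx'
            · exact hiso _ hw'
            · exact hs.nocommon x hx x' hx' hne w hw hw'
        · rw [Finset.card_insert_of_notMem hvX]
          rw [hAe] at hc
          omega
      · -- leaf
        have h1 : (Nb G v).card = 1 := by
          have : dg G v < 2 := hv
          unfold dg at this h0
          omega
        obtain ⟨y, hy⟩ := Finset.card_eq_one.1 h1
        have hvy : G.Adj v y := by
          rw [← mem_Nb, hy]; simp
        have honly : ∀ w, G.Adj v w → w = y := by
          intro w hw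
          have : w ∈ Nb G v := mem_Nb.2 hw
          rw [hy] at this
          simpa using this
        have hyv : y ≠ v := hvy.ne'
        set G' := cut G v with hG'
        have hsum : ∑ u, dg G' u + 2 = ∑ u, dg G u := by
          have hu : ∀ u, dg G u = dg G' u + ((if u = v then 1 else 0) + (if u = y then 1 else 0)) := by
            intro u
            by_cases huv : u = v
            · subst huv
              have : Nb G' u = ∅ := by
                ext w
                rw [mem_Nb, hG', cut_adj]
                simp
              rw [if_pos rfl, if_neg hyv.symm]
              unfold dg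
              rw [this, hy]
              simp
            · by_cases huy : u = y
              · subst huy
                have : Nb G u = insert v (Nb G' u) := by
                  ext w
                  rw [Finset.mem_insert, mem_Nb, mem_Nb, hG', cut_adj]
                  constructor
                  · intro h
                    by_cases hw : w = v
                    · exact Or.inl hw
                    · exact Or.inr ⟨h, huv, hw⟩
                  · rintro (rfl | h)
                    · exact hvy.symm
                    · exact h.1
                rw [if_neg huv, if_pos rfl]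
                unfold dg
                rw [this, Finset.card_insert_of_notMem]
                rw [mem_Nb, hG', cut_adj]
                simp
              · have : Nb G u = Nb G' u := by
                  ext w
                  rw [mem_Nb, mem_Nb, hG', cut_adj]
                  constructor
                  · intro h
                    refine ⟨h, huv, ?_⟩
                    rintro rfl
                    exact huy (honly u h.symm)
                  · exact fun h => h.1
                rw [if_neg huv, if_neg huy]
                unfold dg
                rw [this]
                rfl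
          have : ∑ u, dg G u = ∑ u, dg G' u + (∑ u : Fin n, (if u = v then 1 else 0) +
              ∑ u : Fin n, (if u = y then 1 else 0)) := by
            rw [← Finset.sum_add_distrib, ← Finset.sum_add_distrib]
            exact Finset.sum_congr rfl fun u _ => hu u
          rw [this]
          simp
        obtain ⟨X, hX, hs, hc⟩ := ih (A.erase v) G' hAe (fun u w huw => by
          have := cut_adj.1 huw
          exact Finset.mem_erase.2 ⟨this.2.1, hsupp u w this.1⟩)
        have hvX : v ∉ X := fun h => (Finset.mem_erase.1 (hX h)).1 rfl
        rw [hAe] at hc
        -- adjacency in `G` of vertices other than `v`, `y`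
        have hadj' : ∀ x w, x ≠ v → x ≠ y → G.Adj x w → G'.Adj x w := by
          intro x w hxv hxy hxw
          refine cut_adj.2 ⟨hxw, hxv, ?_⟩
          rintro rfl
          exact hxy (honly x hxw.symm)
        have hdeg' : ∀ x, x ≠ v → x ≠ y → dg G x ≤ dg G' x := by
          intro x hxv hxy
          refine Finset.card_le_card fun w hw => ?_
          exact mem_Nb.2 (hadj' x w hxv hxy (mem_Nb.1 hw))
        by_cases hyX : y ∈ X
        · refine ⟨insert v (X.erase y), ?_, ⟨?_, ?_, ?_⟩, ?_⟩
          · intro x hx
            rcases Finset.mem_insert.1 hx with rfl | hx
            · exact hvA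
            · exact Finset.mem_of_mem_erase (hX (Finset.mem_of_mem_erase hx))
          · intro x hx
            rcases Finset.mem_insert.1 hx with rfl | hx
            · omega
            · have hxX := Finset.mem_of_mem_erase hx
              have hxy := Finset.ne_of_mem_erase hx
              exact (hdeg' x (fun h => hvX (h ▸ hxX)) hxy).trans (hs.deg x hxX)
          · have key : ∀ x ∈ X.erase y, ∀ w, G.Adj x w → w = v ∨ w ∈ X.erase y → False := by
              intro x hx w hxw hw
              have hxX := Finset.mem_of_mem_erase hx
              have hxy := Finset.ne_of_mem_erase hx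
              rcases hw with rfl | hw
              · exact hxy (honly x hxw.symm)
              · exact hs.indep x hxX w (Finset.mem_of_mem_erase hw)
                  (hadj' x w (fun h => hvX (h ▸ hxX)) hxy hxw)
            intro x hx x' hx' hadj
            rcases Finset.mem_insert.1 hx with rfl | hx
            · rcases Finset.mem_insert.1 hx' with rfl | hx'
              · exact G.loopless.irrefl _ hadj
              · exact key x' hx' _ hadj.symm (Or.inl rfl)
            · exact key x hx x' hadj (Finset.mem_insert.1 hx')
          · have key : ∀ x ∈ X.erase y, ∀ w, G.Adj v w → ¬ G.Adj x w := by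
              intro x hx w hvw hxw
              have hxX := Finset.mem_of_mem_erase hx
              have hxy := Finset.ne_of_mem_erase hx
              have hw := honly w hvw
              subst hw
              exact hs.indep x hxX w hyX (hadj' x w (fun h => hvX (h ▸ hxX)) hxy hxw)
            intro x hx x' hx' hne w hw hw'
            rcases Finset.mem_insert.1 hx with hx1 | hx1
            · rcases Finset.mem_insert.1 hx' with hx2 | hx2
              · exact hne (hx1.trans hx2.symm)
              · rw [hx1] at hw
                exact key x' hx2 w hw hw'
            · rcases Finset.mem_insert.1 hx' with hx2 | hx2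
              · rw [hx2] at hw'
                exact key x hx1 w hw' hw
              · have hxX := Finset.mem_of_mem_erase hx1
                have hxX' := Finset.mem_of_mem_erase hx2
                exact hs.nocommon x hxX x' hxX' hne w
                  (hadj' x w (fun h => hvX (h ▸ hxX)) (Finset.ne_of_mem_erase hx1) hw)
                  (hadj' x' w (fun h => hvX (h ▸ hxX')) (Finset.ne_of_mem_erase hx2) hw')
          · rw [Finset.card_insert_of_notMem
              (fun h => hvX (Finset.mem_of_mem_erase h)), Finset.card_erase_of_mem hyX]
            have : 0 < X.card := Finset.card_pos.2 ⟨y, hyX⟩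
            omega
        · have hX' : ∀ x ∈ X, x ≠ v ∧ x ≠ y := fun x hx =>
            ⟨fun h => hvX (h ▸ hx), fun h => hyX (h ▸ hx)⟩
          refine ⟨X, fun x hx => Finset.mem_of_mem_erase (hX hx), ⟨?_, ?_, ?_⟩, ?_⟩
          · intro x hx
            exact (hdeg' x (hX' x hx).1 (hX' x hx).2).trans (hs.deg x hx)
          · intro x hx x' hx' hadj
            exact hs.indep x hx x' hx' (hadj' x x' (hX' x hx).1 (hX' x hx).2 hadj)
          · intro x hx x' hx' hne w hw hw'
            exact hs.nocommon x hx x' hx' hne w
              (hadj' x w (hX' x hx).1 (hX' x hx).2 hw)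
              (hadj' x' w (hX' x' hx').1 (hX' x' hx').2 hw')
          · omega

/-- A graph on `n` vertices with few edges has a large leaf system. -/
theorem peel (G : SimpleGraph (Fin n)) :
    ∃ X : Finset (Fin n), LeafSys G X ∧ 2 * n ≤ 2 * X.card + ∑ v, dg G v := by
  obtain ⟨X, -, h1, h2⟩ := peel_aux n univ G (by simp) (by simp)
  exact ⟨X, h1, by simpa using h2⟩

end Pool.Agent.helper4.Pack
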