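import Mathlib
import Pool.Agent.helper4.Pack.Peel

set_option autoImplicit false

open Finset Classical

namespace Pool.Agent.helper4.Pack

variable {n : ℕ}

/-- The structural data of a graph used in the design. -/
structure GData (G : SimpleGraph (Fin n)) (k R : ℕ) (l : Fin k) where
  crit : Prop
  S : Finset (Fin n)
  s : Bool → Fin n
  x : Fin k → Fin n
  y : Fin k → Fin n
  f : Bool → Fin R → Fin n
  yy : Bool → Fin R → Fin 3 → Fin n
  sS : ∀ b, s b ∈ S
  crit_S : crit → S = {s false}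
  crit_s : crit → s true = s false
  ncrit_s : ¬ crit → s true ≠ s false
  x_adj : ∀ i, i ≠ l → ∀ w, G.Adj (x i) w → w = y i
  x_inj : ∀ i, i ≠ l → ∀ j, j ≠ l → x i = x j → i = j
  y_inj : ∀ i, i ≠ l → ∀ j, j ≠ l → y i = y j → i = j
  x_ne_y : ∀ i, i ≠ l → ∀ j, j ≠ l → x i ≠ y j
  x_S : ∀ i, i ≠ l → x i ∉ S
  crit_y : crit → ∀ i, i ≠ l → y i ∉ S
  f_adj : ∀ b r w, G.Adj (f b r) w → w = s b ∨ ∃ e, w = yy b r e
  crit_f : crit → ∀ b r w, G.Adj (f b r) w → w = s b
  f_inj : ∀ b r b' r', f b r = f b' r' → b = b' ∧ r = r'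
  f_S : ∀ b r, f b r ∉ S
  f_x : ∀ b r i, i ≠ l → f b r ≠ x i
  f_y : ∀ b r i, i ≠ l → f b r ≠ y i
  yy_inj : ∀ b r e b' r' e', yy b r e = yy b' r' e' → b = b' ∧ r = r' ∧ e = e'
  yy_S : ∀ b r e, yy b r e ∉ S
  yy_x : ∀ b r e i, i ≠ l → yy b r e ≠ x i
  yy_y : ∀ b r e i, i ≠ l → yy b r e ≠ y i
  f_yy : ∀ b r b' r' e, f b r ≠ yy b' r' e

lemma exists_fresh {I : Type} [Fintype I] (F : Finset (Fin n))
    (h : F.card + Fintype.card I ≤ n) :
    ∃ g : I → Fin n, Function.Injective g ∧ ∀ i, g i ∉ F := by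
  have h1 : Fintype.card I ≤ Fintype.card {v : Fin n // v ∉ F} := by
    have : Fintype.card {v : Fin n // v ∉ F} = n - F.card := by
      rw [Fintype.card_subtype_compl]
      simp
    omega
  obtain ⟨e⟩ := Function.Embedding.nonempty_of_card_le h1
  exact ⟨fun i => (e i : Fin n), fun a b hab => e.injective (Subtype.ext hab), fun i => (e i).2⟩

/-- Choose distinct elements of a set, indexed by the `i ≠ l`. -/
lemma exists_choice {k : ℕ} (l : Fin k) (X : Finset (Fin n)) (h : k ≤ X.card + 1) (h0 : 0 < n) :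
    ∃ x : Fin k → Fin n, (∀ i, i ≠ l → x i ∈ X) ∧ ∀ i, i ≠ l → ∀ j, j ≠ l → x i = x j → i = j := by
  have h1 : Fintype.card {i : Fin k // i ≠ l} ≤ Fintype.card X := by
    have : Fintype.card {i : Fin k // i ≠ l} = k - 1 := by
      rw [Fintype.card_subtype_compl]
      simp
    rw [this, Fintype.card_coe]
    omega
  obtain ⟨e⟩ := Function.Embedding.nonempty_of_card_le h1
  refine ⟨fun i => if hi : i = l then ⟨0, h0⟩ else (e ⟨i, hi⟩ : Fin n), ?_, ?_⟩
  · intro i hi
    simp only [hi, dite_false]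
    exact (e ⟨i, hi⟩).2
  · intro i hi j hj hij
    simp only [hi, hj, dite_false] at hij
    have := e.injective (Subtype.ext hij)
    exact congrArg Subtype.val this

/-- The closed neighbourhood. -/
noncomputable def CN (G : SimpleGraph (Fin n)) (v : Fin n) : Finset (Fin n) := insert v (Nb G v)

lemma mem_CN {G : SimpleGraph (Fin n)} {v w : Fin n} : w ∈ CN G v ↔ w = v ∨ G.Adj v w := by
  rw [CN, Finset.mem_insert, mem_Nb]

/-- A family of free vertices. -/
def Free (G : SimpleGraph (Fin n)) (Sp M : Finset (Fin n)) : Prop :=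
  (∀ v ∈ M, v ∉ Sp ∧ dg G v ≤ 3 ∧ ∀ w, G.Adj v w → w ∉ Sp) ∧
    ∀ v ∈ M, ∀ v' ∈ M, v ≠ v' → Disjoint (CN G v) (CN G v')

lemma dichotomy (G : SimpleGraph (Fin n)) (Sp : Finset (Fin n)) (R : ℕ) :
    (∃ M : Finset (Fin n), 2 * R ≤ M.card ∧ Free G Sp M) ∨
    (∃ Z : Finset (Fin n), Sp ⊆ Z ∧ Z.card ≤ Sp.card + 8 * R ∧
      ∀ x, x ∉ Z → (∀ w, G.Adj x w → w ∉ Z) → 4 ≤ dg G x) := by
  have hne : (univ.filter (fun M : Finset (Fin n) => Free G Sp M)).Nonempty :=
    ⟨∅, by simp [Free]⟩
  obtain ⟨M, hM, hmax⟩ := Finset.exists_max_image _ (fun M => M.card) hne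
  have hMF : Free G Sp M := (Finset.mem_filter.1 hM).2
  by_cases hcard : 2 * R ≤ M.card
  · exact Or.inl ⟨M, hcard, hMF⟩
  · right
    refine ⟨Sp ∪ M.biUnion (CN G), Finset.subset_union_left, ?_, ?_⟩
    · refine (Finset.card_union_le _ _).trans (Nat.add_le_add_left ?_ _)
      refine (card_biUnion_le_mul (c := 4) fun v hv => ?_).trans (by omega)
      refine (Finset.card_insert_le _ _).trans ?_
      have := (hMF.1 v hv).2.1
      unfold dg at this
      omega
    · intro x hx hw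
      by_contra hlt
      rw [Finset.mem_union, not_or] at hx
      have hxM : x ∉ M := fun h => hx.2 (Finset.mem_biUnion.2 ⟨x, h, mem_CN.2 (Or.inl rfl)⟩)
      have hdisj : ∀ v ∈ M, Disjoint (CN G x) (CN G v) := by
        intro v hv
        rw [Finset.disjoint_left]
        intro w hw1 hw2
        have hwZ : w ∈ M.biUnion (CN G) := Finset.mem_biUnion.2 ⟨v, hv, hw2⟩
        rcases mem_CN.1 hw1 with rfl | h
        · exact hx.2 hwZ
        · exact hw w h (Finset.mem_union_right _ hwZ)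
      have hF : Free G Sp (insert x M) := by
        refine ⟨?_, ?_⟩
        · intro v hv
          rcases Finset.mem_insert.1 hv with rfl | hv
          · exact ⟨hx.1, by omega, fun w h h' => hw w h (Finset.mem_union_left _ h')⟩
          · exact hMF.1 v hv
        · intro v hv v' hv' hne
          rcases Finset.mem_insert.1 hv with h1 | h1
          · rcases Finset.mem_insert.1 hv' with h2 | h2
            · exact absurd (h1.trans h2.symm) hne
            · rw [h1]; exact hdisj v' h2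
          · rcases Finset.mem_insert.1 hv' with h2 | h2
            · rw [h2]; exact (hdisj v h1).symm
            · exact hMF.2 v h1 v' h2 hne
      have := hmax (insert x M) (Finset.mem_filter.2 ⟨Finset.mem_univ _, hF⟩)
      rw [Finset.card_insert_of_notMem hxM] at this
      omega

/-- The leaves attached to `Z`. -/
noncomputable def Lf (G : SimpleGraph (Fin n)) (Z : Finset (Fin n)) : Finset (Fin n) :=
  univ.filter (fun x => x ∉ Z ∧ dg G x = 1 ∧ ∃ z ∈ Z, G.Adj x z)

lemma leaves {G : SimpleGraph (Fin n)} {Z : Finset (Fin n)} (hsum : ∑ v, dg G v ≤ 2 * n)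
    (h : ∀ x, x ∉ Z → (∀ w, G.Adj x w → w ∉ Z) → 4 ≤ dg G x) :
    n ≤ (Lf G Z).card + 3 * Z.card := by
  have hsplit : ∑ v, dg G v = ∑ v ∈ Z, dg G v + ∑ v ∈ Zᶜ, dg G v :=
    (Finset.sum_add_sum_compl Z _).symm
  have hZ : ∑ x ∈ Zᶜ, (Z.filter (fun z => G.Adj x z)).card ≤ ∑ v ∈ Z, dg G v := by
    calc ∑ x ∈ Zᶜ, (Z.filter (fun z => G.Adj x z)).card
        = ∑ x ∈ Zᶜ, ∑ z ∈ Z, if G.Adj x z then 1 else 0 := by
          refine Finset.sum_congr rfl fun x _ => ?_
          rw [Finset.card_filter]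
      _ = ∑ z ∈ Z, ∑ x ∈ Zᶜ, if G.Adj x z then 1 else 0 := Finset.sum_comm
      _ ≤ ∑ z ∈ Z, dg G z := by
          refine Finset.sum_le_sum fun z _ => ?_
          rw [← Finset.card_filter]
          refine Finset.card_le_card fun x hx => ?_
          exact mem_Nb.2 (Finset.mem_filter.1 hx).2.symm
  have hx : ∀ x ∈ Zᶜ, 2 + (if x ∈ Lf G Z then 0 else 1) ≤
      (Z.filter (fun z => G.Adj x z)).card + dg G x := by
    intro x hx
    rw [Finset.mem_compl] at hx
    have hle : (Z.filter (fun z => G.Adj x z)).card ≤ dg G x := by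
      refine Finset.card_le_card fun w hw => ?_
      exact mem_Nb.2 (Finset.mem_filter.1 hw).2
    rcases Nat.eq_zero_or_pos (Z.filter (fun z => G.Adj x z)).card with h0 | h0
    · have h4 := h x hx (fun w hw hwZ => by
        have : Z.filter (fun z => G.Adj x z) = ∅ := Finset.card_eq_zero.1 h0
        have h1 : w ∈ Z.filter (fun z => G.Adj x z) := Finset.mem_filter.2 ⟨hwZ, hw⟩
        rw [this] at h1
        simp at h1)
      split_ifs <;> omega
    · obtain ⟨z, hz⟩ := Finset.card_pos.1 h0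
      rw [Finset.mem_filter] at hz
      split_ifs with hL
      · omega
      · have : dg G x ≠ 1 := fun h1 =>
          hL (Finset.mem_filter.2 ⟨Finset.mem_univ _, hx, h1, z, hz.1, hz.2⟩)
        omega
  have hsum2 := Finset.sum_le_sum hx
  rw [Finset.sum_add_distrib, Finset.sum_add_distrib, Finset.sum_const, smul_eq_mul] at hsum2
  have hcompl : (Zᶜ).card = n - Z.card := by
    rw [Finset.card_compl, Fintype.card_fin]
  have hZn : Z.card ≤ n := by
    have := Finset.card_le_univ Z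
    rwa [Fintype.card_fin] at this
  have hLf : ∑ x ∈ Zᶜ, (if x ∈ Lf G Z then 0 else 1) + (Lf G Z).card = (Zᶜ).card := by
    have h1 : (Lf G Z) ⊆ Zᶜ := by
      intro x hx
      rw [Finset.mem_compl]
      exact (Finset.mem_filter.1 hx).2.1
    have h2 : ∑ x ∈ Zᶜ, (if x ∈ Lf G Z then 0 else 1) = ((Zᶜ).filter (fun x => x ∉ Lf G Z)).card := by
      rw [Finset.card_filter]
      refine Finset.sum_congr rfl fun x _ => ?_
      by_cases hx : x ∈ Lf G Z <;> simp [hx]
    have h3 : (Lf G Z).card = ((Zᶜ).filter (fun x => x ∈ Lf G Z)).card := by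
      congr 1
      ext x
      rw [Finset.mem_filter]
      exact ⟨fun h => ⟨h1 h, h⟩, fun h => h.2⟩
    rw [h2, h3, add_comm]
    exact Finset.card_filter_add_card_filter_not _
  omega

end Pool.Agent.helper4.Pack
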