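import Mathlib
import Pool.Agent.helper4.Pack.Classify

set_option autoImplicit false

open Finset Classical

namespace Pool.Agent.helper4.Pack

variable {n : ℕ}

/-- Pad a disjoint family of small sets with fresh vertices. -/
lemma pad {I : Type} [Fintype I] (c : ℕ) (A : I → Finset (Fin n)) (hc : ∀ i, (A i).card ≤ c)
    (hd : ∀ i j, i ≠ j → Disjoint (A i) (A j)) (F : Finset (Fin n)) (hF : ∀ i, A i ⊆ F)
    (hn : F.card + Fintype.card I * c ≤ n) :
    ∃ g : I → Fin c → Fin n, (∀ i e i' e', g i e = g i' e' → i = i' ∧ e = e') ∧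
      (∀ i e, g i e ∈ A i ∨ g i e ∉ F) ∧ ∀ i, ∀ a ∈ A i, ∃ e, g i e = a := by
  obtain ⟨fr, hfr, hfrF⟩ := exists_fresh (I := I × Fin c) F (by
    rw [Fintype.card_prod, Fintype.card_fin]; exact hn)
  have hemb : ∀ i, ∃ em : A i → Fin c, Function.Injective em := by
    intro i
    have h1 : Fintype.card (A i) ≤ Fintype.card (Fin c) := by
      rw [Fintype.card_coe, Fintype.card_fin]; exact hc i
    obtain ⟨e⟩ := Function.Embedding.nonempty_of_card_le h1
    exact ⟨e, e.injective⟩
  choose em hem using hemb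
  refine ⟨fun i e => if h : ∃ a : A i, em i a = e then (h.choose : Fin n) else fr (i, e),
    ?_, ?_, ?_⟩
  · intro i e i' e' h
    by_cases h1 : ∃ a : A i, em i a = e
    · by_cases h2 : ∃ a : A i', em i' a = e'
      · simp only [dif_pos h1, dif_pos h2] at h
        have hi : i = i' := by
          by_contra hne
          exact Finset.disjoint_left.1 (hd i i' hne) h1.choose.2 (h ▸ h2.choose.2)
        subst hi
        refine ⟨rfl, ?_⟩
        rw [← h1.choose_spec, ← h2.choose_spec]
        congr 1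
        exact Subtype.ext h
      · simp only [dif_pos h1, dif_neg h2] at h
        exact absurd (h ▸ hF i h1.choose.2) (hfrF (i', e'))
    · by_cases h2 : ∃ a : A i', em i' a = e'
      · simp only [dif_neg h1, dif_pos h2] at h
        exact absurd (h.symm ▸ hF i' h2.choose.2) (hfrF (i, e))
      · simp only [dif_neg h1, dif_neg h2] at h
        have := hfr h
        exact ⟨congrArg Prod.fst this, congrArg Prod.snd this⟩
  · intro i e
    by_cases h1 : ∃ a : A i, em i a = e
    · simp only [dif_pos h1]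
      exact Or.inl h1.choose.2
    · simp only [dif_neg h1]
      exact Or.inr (hfrF _)
  · intro i a ha
    have h1 : ∃ a' : A i, em i a' = em i ⟨a, ha⟩ := ⟨⟨a, ha⟩, rfl⟩
    refine ⟨em i ⟨a, ha⟩, ?_⟩
    simp only [dif_pos h1]
    exact congrArg Subtype.val (hem i h1.choose_spec)

/-- Building the data from its essential part. -/
lemma build (G : SimpleGraph (Fin n)) (k R : ℕ) (l : Fin k) (crit : Prop) (S : Finset (Fin n))
    (s : Bool → Fin n) (x : Fin k → Fin n) (f : Bool → Fin R → Fin n)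
    (sS : ∀ b, s b ∈ S) (crit_S : crit → S = {s false}) (crit_s : crit → s true = s false)
    (ncrit_s : ¬ crit → s true ≠ s false)
    (xdeg : ∀ i, i ≠ l → (Nb G (x i)).card ≤ 1)
    (x_inj : ∀ i, i ≠ l → ∀ j, j ≠ l → x i = x j → i = j)
    (x_ind : ∀ i, i ≠ l → ∀ j, j ≠ l → x i ∉ Nb G (x j))
    (x_noc : ∀ i, i ≠ l → ∀ j, j ≠ l → i ≠ j → Disjoint (Nb G (x i)) (Nb G (x j)))
    (x_S : ∀ i, i ≠ l → x i ∉ S)
    (crit_x : crit → ∀ i, i ≠ l → ∀ w ∈ Nb G (x i), w ∉ S)
    (f_inj : ∀ b r b' r', f b r = f b' r' → b = b' ∧ r = r')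
    (f_S : ∀ b r, f b r ∉ S)
    (f_x : ∀ b r i, i ≠ l → f b r ≠ x i)
    (f_Nx : ∀ b r i, i ≠ l → f b r ∉ Nb G (x i))
    (fdeg : ∀ b r, ((Nb G (f b r)).erase (s b)).card ≤ 3)
    (f_disj : ∀ b r b' r', (b, r) ≠ (b', r') →
      Disjoint ((Nb G (f b r)).erase (s b)) ((Nb G (f b' r')).erase (s b')))
    (Nf_S : ∀ b r, ∀ w ∈ (Nb G (f b r)).erase (s b), w ∉ S)
    (Nf_x : ∀ b r i, i ≠ l → x i ∉ (Nb G (f b r)).erase (s b))
    (Nf_Nx : ∀ b r i, i ≠ l → ∀ w ∈ (Nb G (f b r)).erase (s b), w ∉ Nb G (x i))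
    (Nf_f : ∀ b r b' r', f b r ∉ (Nb G (f b' r')).erase (s b'))
    (crit_f : crit → ∀ b r w, G.Adj (f b r) w → w = s b)
    (hn : S.card + 3 * k + 14 * R ≤ n) :
    ∃ d : GData G k R l, d.crit = crit ∧ d.S = S := by
  -- the neighbourhoods of the `x i`
  set A : Fin k → Finset (Fin n) := fun i => if i = l then ∅ else Nb G (x i) with hA
  have hAne : ∀ i, i ≠ l → A i = Nb G (x i) := fun i hi => by rw [hA]; simp [hi]
  set B : Bool × Fin R → Finset (Fin n) := fun t => (Nb G (f t.1 t.2)).erase (s t.1) with hB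
  set F : Finset (Fin n) := S ∪ (univ.image x) ∪ (univ.biUnion A) ∪
    (univ.image (fun t : Bool × Fin R => f t.1 t.2)) ∪ (univ.biUnion B) with hFdef
  have hAc : ∀ i, (A i).card ≤ 1 := by
    intro i
    by_cases hi : i = l
    · rw [hA]; simp [hi]
    · rw [hAne i hi]; exact xdeg i hi
  have hBc : ∀ t, (B t).card ≤ 3 := fun t => fdeg t.1 t.2
  have hFc : F.card ≤ S.card + 2 * k + 8 * R := by
    have e1 : (univ.image x).card ≤ k := by
      refine Finset.card_image_le.trans ?_
      rw [Finset.card_univ, Fintype.card_fin]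
    have e2 : (univ.biUnion A).card ≤ k := by
      refine (Finset.card_biUnion_le_card_mul _ _ 1 fun i _ => hAc i).trans ?_
      rw [Finset.card_univ, Fintype.card_fin, mul_one]
    have e3 : (univ.image (fun t : Bool × Fin R => f t.1 t.2)).card ≤ 2 * R := by
      refine Finset.card_image_le.trans ?_
      rw [Finset.card_univ, Fintype.card_prod, Fintype.card_fin, Fintype.card_bool]
    have e4 : (univ.biUnion B).card ≤ 6 * R := by
      refine (Finset.card_biUnion_le_card_mul _ _ 3 fun i _ => hBc i).trans ?_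
      rw [Finset.card_univ, Fintype.card_prod, Fintype.card_fin, Fintype.card_bool]
      omega
    have u1 := Finset.card_union_le (S ∪ (univ.image x) ∪ (univ.biUnion A) ∪
      (univ.image (fun t : Bool × Fin R => f t.1 t.2))) (univ.biUnion B)
    have u2 := Finset.card_union_le (S ∪ (univ.image x) ∪ (univ.biUnion A))
      (univ.image (fun t : Bool × Fin R => f t.1 t.2))
    have u3 := Finset.card_union_le (S ∪ (univ.image x)) (univ.biUnion A)
    have u4 := Finset.card_union_le S (univ.image x)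
    rw [hFdef]
    omega
  have hSF : S ⊆ F := fun w hw => by simp [hFdef, hw]
  have hxF : ∀ i, x i ∈ F := fun i => by simp [hFdef]
  have hAF : ∀ i, A i ⊆ F := by
    intro i w hw
    rw [hFdef]
    simp only [Finset.mem_union, Finset.mem_biUnion]
    exact Or.inl (Or.inl (Or.inr ⟨i, Finset.mem_univ _, hw⟩))
  have hfF : ∀ b r, f b r ∈ F := by
    intro b r
    rw [hFdef]
    simp only [Finset.mem_union, Finset.mem_image]
    exact Or.inl (Or.inr ⟨(b, r), Finset.mem_univ _, rfl⟩)
  have hBF : ∀ t, B t ⊆ F := by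
    intro t w hw
    rw [hFdef]
    simp only [Finset.mem_union, Finset.mem_biUnion]
    exact Or.inr ⟨t, Finset.mem_univ _, hw⟩
  obtain ⟨g, g_inj, g_mem, g_sur⟩ := pad 1 A hAc (fun i j hij => by
    by_cases hi : i = l
    · have : A i = ∅ := by rw [hA]; simp [hi]
      rw [this]; exact Finset.disjoint_empty_left _
    by_cases hj : j = l
    · have : A j = ∅ := by rw [hA]; simp [hj]
      rw [this]; exact Finset.disjoint_empty_right _
    rw [hAne i hi, hAne j hj]
    exact x_noc i hi j hj hij) F hAF (by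
      rw [Fintype.card_fin]; omega)
  set y : Fin k → Fin n := fun i => g i 0 with hy
  set F' : Finset (Fin n) := F ∪ univ.image y with hF'
  have hF'c : F'.card ≤ S.card + 3 * k + 8 * R := by
    have e1 : (univ.image y).card ≤ k := by
      refine Finset.card_image_le.trans ?_
      rw [Finset.card_univ, Fintype.card_fin]
    have := Finset.card_union_le F (univ.image y)
    rw [hF']
    omega
  have hFF' : F ⊆ F' := Finset.subset_union_left
  have hyF' : ∀ i, y i ∈ F' := fun i =>
    Finset.mem_union_right _ (Finset.mem_image_of_mem _ (Finset.mem_univ _))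
  obtain ⟨h, h_inj, h_mem, h_sur⟩ := pad 3 B hBc (fun t t' htt => f_disj t.1 t.2 t'.1 t'.2 htt)
    F' (fun t => (hBF t).trans hFF') (by
      rw [Fintype.card_prod, Fintype.card_fin, Fintype.card_bool]; omega)
  have ycase : ∀ i, i ≠ l → (y i ∈ Nb G (x i)) ∨ y i ∉ F := by
    intro i hi
    rcases g_mem i 0 with h1 | h1
    · rw [hAne i hi] at h1; exact Or.inl h1
    · exact Or.inr h1
  refine ⟨{
    crit := crit
    S := S
    s := s
    x := x
    y := y
    f := f
    yy := fun b r e => h (b, r) e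
    sS := sS
    crit_S := crit_S
    crit_s := crit_s
    ncrit_s := ncrit_s
    x_adj := ?_
    x_inj := x_inj
    y_inj := ?_
    x_ne_y := ?_
    x_S := x_S
    crit_y := ?_
    f_adj := ?_
    crit_f := crit_f
    f_inj := f_inj
    f_S := f_S
    f_x := f_x
    f_y := ?_
    yy_inj := ?_
    yy_S := ?_
    yy_x := ?_
    yy_y := ?_
    f_yy := ?_ }, rfl, rfl⟩
  · intro i hi w hw
    obtain ⟨e, he⟩ := g_sur i w (by rw [hAne i hi]; exact mem_Nb.2 hw)
    rw [← he, Subsingleton.elim e 0]
  · intro i _ j _ hij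
    exact (g_inj i 0 j 0 hij).1
  · intro i hi j hj hij
    rcases ycase j hj with h1 | h1
    · exact x_ind i hi j hj (hij ▸ h1)
    · exact h1 (hij ▸ hxF i)
  · intro hc i hi
    rcases ycase i hi with h1 | h1
    · exact crit_x hc i hi _ h1
    · exact fun h2 => h1 (hSF h2)
  · intro b r w hw
    by_cases hws : w = s b
    · exact Or.inl hws
    · right
      obtain ⟨e, he⟩ := h_sur (b, r) w (Finset.mem_erase.2 ⟨hws, mem_Nb.2 hw⟩)
      exact ⟨e, he.symm⟩
  · intro b r i hi hfy
    rcases ycase i hi with h1 | h1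
    · exact f_Nx b r i hi (hfy ▸ h1)
    · exact h1 (hfy ▸ hfF b r)
  · intro b r e b' r' e' he
    obtain ⟨h1, h2⟩ := h_inj (b, r) e (b', r') e' he
    exact ⟨congrArg Prod.fst h1, congrArg Prod.snd h1, h2⟩
  · intro b r e
    rcases h_mem (b, r) e with h1 | h1
    · exact Nf_S b r _ h1
    · exact fun h2 => h1 (hFF' (hSF h2))
  · intro b r e i hi he
    rcases h_mem (b, r) e with h1 | h1
    · exact Nf_x b r i hi (he ▸ h1)
    · exact h1 (he ▸ hFF' (hxF i))
  · intro b r e i hi he
    rcases h_mem (b, r) e with h1 | h1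
    · rcases ycase i hi with h2 | h2
      · exact Nf_Nx b r i hi _ h1 (he ▸ h2)
      · exact h2 (he ▸ hBF (b, r) h1)
    · exact h1 (he ▸ hyF' i)
  · intro b r b' r' e he
    rcases h_mem (b', r') e with h1 | h1
    · exact Nf_f b r b' r' (he ▸ h1)
    · exact h1 (he ▸ hFF' (hfF b r))

end Pool.Agent.helper4.Pack
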