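import Mathlib
import Pool.Agent.helper4.Pack.Build

set_option autoImplicit false

open Finset Classical

namespace Pool.Agent.helper4.Pack

variable {n : ℕ}

lemma dg_one_unique {G : SimpleGraph (Fin n)} {x z w : Fin n} (h : dg G x ≤ 1)
    (hz : G.Adj x z) (hw : G.Adj x w) : w = z := by
  by_contra hne
  have : 1 < (Nb G x).card := Finset.one_lt_card.2 ⟨w, mem_Nb.2 hw, z, mem_Nb.2 hz, hne⟩
  unfold dg at h
  omega

lemma classify_case1 {G : SimpleGraph (Fin n)} {k R m : ℕ} {l : Fin k} {S₀ Sp M : Finset (Fin n)}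
    {x : Fin k → Fin n} (hS₀ : S₀ ⊆ Sp) (hSp : Sp.card ≤ m + 2 * k)
    (hS₀c : S₀.card ≤ m)
    (xdeg : ∀ i, i ≠ l → (Nb G (x i)).card ≤ 1)
    (x_inj : ∀ i, i ≠ l → ∀ j, j ≠ l → x i = x j → i = j)
    (x_ind : ∀ i, i ≠ l → ∀ j, j ≠ l → x i ∉ Nb G (x j))
    (x_noc : ∀ i, i ≠ l → ∀ j, j ≠ l → i ≠ j → Disjoint (Nb G (x i)) (Nb G (x j)))
    (x_S : ∀ i, i ≠ l → x i ∉ S₀)
    (hxSp : ∀ i, i ≠ l → ∀ w ∈ CN G (x i), w ∈ Sp)
    (hM : 2 * R ≤ M.card) (hfree : Free G Sp M)
    (hn : m + 3 * k + 14 * R + 2 ≤ n) :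
    ∃ d : GData G k R l, d.S.card ≤ S₀.card + 2 ∧ ¬ d.crit ∧ S₀ ⊆ d.S := by
  have hle : Fintype.card (Bool × Fin R) ≤ Fintype.card M := by
    rw [Fintype.card_prod, Fintype.card_fin, Fintype.card_bool, Fintype.card_coe]
    exact hM
  obtain ⟨em⟩ := Function.Embedding.nonempty_of_card_le hle
  set f : Bool → Fin R → Fin n := fun b r => (em (b, r) : Fin n) with hf
  have hfM : ∀ b r, f b r ∈ M := fun b r => (em (b, r)).2
  have f_inj : ∀ b r b' r', f b r = f b' r' → b = b' ∧ r = r' := by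
    intro b r b' r' h
    have := em.injective (Subtype.ext h)
    exact ⟨congrArg Prod.fst this, congrArg Prod.snd this⟩
  set F : Finset (Fin n) := Sp ∪ univ.biUnion (fun t : Bool × Fin R => CN G (f t.1 t.2)) with hF
  have hFc : F.card ≤ m + 2 * k + 8 * R := by
    have e1 : (univ.biUnion (fun t : Bool × Fin R => CN G (f t.1 t.2))).card ≤ 8 * R := by
      refine (Finset.card_biUnion_le_card_mul _ _ 4 fun t _ => ?_).trans ?_
      · refine (Finset.card_insert_le _ _).trans ?_
        have := (hfree.1 _ (hfM t.1 t.2)).2.1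
        unfold dg at this
        omega
      · rw [Finset.card_univ, Fintype.card_prod, Fintype.card_fin, Fintype.card_bool]
        omega
    exact (Finset.card_union_le _ _).trans (by omega)
  obtain ⟨s, s_inj, sF⟩ := exists_fresh (I := Bool) F (by rw [Fintype.card_bool]; omega)
  have hfF : ∀ b r, ∀ w ∈ CN G (f b r), w ∈ F := by
    intro b r w hw
    rw [hF]
    exact Finset.mem_union_right _ (Finset.mem_biUnion.2 ⟨(b, r), Finset.mem_univ _, hw⟩)
  have hself : ∀ v, v ∈ CN G v := fun v => mem_CN.2 (Or.inl rfl)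
  have hNbCN : ∀ v, ∀ w ∈ Nb G v, w ∈ CN G v := fun v w hw => mem_CN.2 (Or.inr (mem_Nb.1 hw))
  have hmemS : ∀ w, w ∈ S₀ ∪ univ.image s ↔ w ∈ S₀ ∨ ∃ b, s b = w := by
    intro w
    simp only [Finset.mem_union, Finset.mem_image, Finset.mem_univ, true_and]
  have hNf : ∀ b r, ∀ w ∈ (Nb G (f b r)).erase (s b), w ∈ Nb G (f b r) :=
    fun b r w hw => Finset.mem_of_mem_erase hw
  have hNfSp : ∀ b r, ∀ w ∈ (Nb G (f b r)).erase (s b), w ∉ Sp :=
    fun b r w hw => (hfree.1 _ (hfM b r)).2.2 w (mem_Nb.1 (hNf b r w hw))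
  have hne : ∀ b r b' r', (b, r) ≠ (b', r') → f b r ≠ f b' r' := by
    intro b r b' r' h1 h2
    obtain ⟨h3, h4⟩ := f_inj _ _ _ _ h2
    exact h1 (by rw [h3, h4])
  obtain ⟨d, hdc, hdS⟩ := build G k R l False (S₀ ∪ univ.image s) s x f
    (fun b => (hmemS _).2 (Or.inr ⟨b, rfl⟩)) (fun h => h.elim) (fun h => h.elim)
    (fun _ h => by simpa using s_inj h)
    xdeg x_inj x_ind x_noc
    (fun i hi h => by
      rcases (hmemS _).1 h with h | ⟨b, hb⟩
      · exact x_S i hi h
      · exact sF b (hb ▸ Finset.mem_union_left _ (hxSp i hi _ (hself _))))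
    (fun h => h.elim) f_inj
    (fun b r h => by
      rcases (hmemS _).1 h with h | ⟨b', hb⟩
      · exact (hfree.1 _ (hfM b r)).1 (hS₀ h)
      · exact sF b' (hb ▸ hfF b r _ (hself _)))
    (fun b r i hi h => (hfree.1 _ (hfM b r)).1 (h ▸ hxSp i hi _ (hself _)))
    (fun b r i hi h => (hfree.1 _ (hfM b r)).1 (hxSp i hi _ (hNbCN _ _ h)))
    (fun b r => (Finset.card_le_card (Finset.erase_subset _ _)).trans (hfree.1 _ (hfM b r)).2.1)
    (fun b r b' r' h => by
      have := hfree.2 _ (hfM b r) _ (hfM b' r') (hne _ _ _ _ h)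
      rw [Finset.disjoint_left] at this ⊢
      intro w hw hw'
      exact this (hNbCN _ _ (hNf _ _ _ hw)) (hNbCN _ _ (hNf _ _ _ hw')))
    (fun b r w hw h => by
      rcases (hmemS _).1 h with h | ⟨b', hb⟩
      · exact hNfSp b r w hw (hS₀ h)
      · exact sF b' (hb ▸ hfF b r _ (hNbCN _ _ (hNf _ _ _ hw))))
    (fun b r i hi h => hNfSp b r _ h (hxSp i hi _ (hself _)))
    (fun b r i hi w hw h => hNfSp b r _ hw (hxSp i hi _ (hNbCN _ _ h)))
    (fun b r b' r' h => by
      have hadj := hNf _ _ _ h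
      by_cases he : (b, r) = (b', r')
      · have h1 : b = b' := congrArg Prod.fst he
        have h2 : r = r' := congrArg Prod.snd he
        subst h1 h2
        exact G.loopless.irrefl _ (mem_Nb.1 hadj)
      · exact Finset.disjoint_left.1 (hfree.2 _ (hfM b r) _ (hfM b' r') (hne _ _ _ _ he))
          (hself _) (hNbCN _ _ hadj))
    (fun h => h.elim)
    (by
      have h1 : (univ.image s).card ≤ 2 := by
        refine Finset.card_image_le.trans ?_
        rw [Finset.card_univ, Fintype.card_bool]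
      have := Finset.card_union_le S₀ (univ.image s)
      omega)
  refine ⟨d, ?_, ?_, ?_⟩
  · rw [hdS]
    have h1 : (univ.image s).card ≤ 2 := by
      refine Finset.card_image_le.trans ?_
      rw [Finset.card_univ, Fintype.card_bool]
    have := Finset.card_union_le S₀ (univ.image s)
    omega
  · rw [hdc]; exact id
  · rw [hdS]; exact Finset.subset_union_left

lemma classify_case2a {G : SimpleGraph (Fin n)} {k R m : ℕ} {l : Fin k} {S₀ Z : Finset (Fin n)}
    {x : Fin k → Fin n} (hS₀ : S₀ ⊆ Z) (hR : 2 ≤ R)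
    (hS₀c : S₀.card ≤ m)
    (xdeg : ∀ i, i ≠ l → (Nb G (x i)).card ≤ 1)
    (x_inj : ∀ i, i ≠ l → ∀ j, j ≠ l → x i = x j → i = j)
    (x_ind : ∀ i, i ≠ l → ∀ j, j ≠ l → x i ∉ Nb G (x j))
    (x_noc : ∀ i, i ≠ l → ∀ j, j ≠ l → i ≠ j → Disjoint (Nb G (x i)) (Nb G (x j)))
    (x_S : ∀ i, i ≠ l → x i ∉ S₀)
    (hxZ : ∀ i, i ≠ l → ∀ w ∈ CN G (x i), w ∈ Z)
    (s : Bool → Fin n) (hs : s true ≠ s false) (hsZ : ∀ b, s b ∈ Z)
    (hsR : ∀ b, R ≤ ((Lf G Z).filter (fun x => G.Adj x (s b))).card)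
    (hn : m + 3 * k + 14 * R + 2 ≤ n) :
    ∃ d : GData G k R l, d.S.card ≤ S₀.card + 2 ∧ ¬ d.crit ∧ S₀ ⊆ d.S := by
  have hemb : ∀ b, ∃ em : Fin R → Fin n, Function.Injective em ∧
      ∀ r, em r ∈ Lf G Z ∧ G.Adj (em r) (s b) := by
    intro b
    have hle : Fintype.card (Fin R) ≤
        Fintype.card ((Lf G Z).filter (fun x => G.Adj x (s b))) := by
      rw [Fintype.card_fin, Fintype.card_coe]
      exact hsR b
    obtain ⟨em⟩ := Function.Embedding.nonempty_of_card_le hle
    exact ⟨fun r => em r, fun a b hab => em.injective (Subtype.ext hab),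
      fun r => Finset.mem_filter.1 (em r).2⟩
  choose f f_injr hfL using hemb
  have hfZ : ∀ b r, f b r ∉ Z := fun b r => (Finset.mem_filter.1 (hfL b r).1).2.1
  have hfd : ∀ b r, dg G (f b r) = 1 := fun b r => (Finset.mem_filter.1 (hfL b r).1).2.2.1
  have huniq : ∀ b r w, G.Adj (f b r) w → w = s b :=
    fun b r w hw => dg_one_unique (hfd b r).le (hfL b r).2 hw
  have s_inj : Function.Injective s := by
    intro b b' h
    cases b <;> cases b' <;> simp_all
  have f_inj : ∀ b r b' r', f b r = f b' r' → b = b' ∧ r = r' := by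
    intro b r b' r' h
    have hb : b = b' := by
      have h1 := huniq b r (s b') (h ▸ (hfL b' r').2)
      exact (s_inj h1).symm
    subst hb
    exact ⟨rfl, f_injr b h⟩
  have hempty : ∀ b r, (Nb G (f b r)).erase (s b) = ∅ := by
    intro b r
    rw [Finset.eq_empty_iff_forall_notMem]
    intro w hw
    exact Finset.ne_of_mem_erase hw (huniq b r w (mem_Nb.1 (Finset.mem_of_mem_erase hw)))
  have hself : ∀ v, v ∈ CN G v := fun v => mem_CN.2 (Or.inl rfl)
  have hNbCN : ∀ v, ∀ w ∈ Nb G v, w ∈ CN G v := fun v w hw => mem_CN.2 (Or.inr (mem_Nb.1 hw))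
  have hmemS : ∀ w, w ∈ S₀ ∪ univ.image s ↔ w ∈ S₀ ∨ ∃ b, s b = w := by
    intro w
    simp only [Finset.mem_union, Finset.mem_image, Finset.mem_univ, true_and]
  have hSZ : ∀ w ∈ S₀ ∪ univ.image s, w ∈ Z := by
    intro w hw
    rcases (hmemS _).1 hw with h | ⟨b, hb⟩
    · exact hS₀ h
    · exact hb ▸ hsZ b
  have hsdeg : ∀ b, 2 ≤ (Nb G (s b)).card := by
    intro b
    refine hR.trans ((hsR b).trans (Finset.card_le_card fun w hw => ?_))
    exact mem_Nb.2 (Finset.mem_filter.1 hw).2.symm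
  obtain ⟨d, hdc, hdS⟩ := build G k R l False (S₀ ∪ univ.image s) s x f
    (fun b => (hmemS _).2 (Or.inr ⟨b, rfl⟩)) (fun h => h.elim) (fun h => h.elim)
    (fun _ => hs)
    xdeg x_inj x_ind x_noc
    (fun i hi h => by
      rcases (hmemS _).1 h with h | ⟨b, hb⟩
      · exact x_S i hi h
      · have h1 := xdeg i hi
        have h2 := hsdeg b
        rw [hb] at h2
        omega)
    (fun h => h.elim) f_inj
    (fun b r h => hfZ b r (hSZ _ h))
    (fun b r i hi h => hfZ b r (h ▸ hxZ i hi _ (hself _)))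
    (fun b r i hi h => hfZ b r (hxZ i hi _ (hNbCN _ _ h)))
    (fun b r => by rw [hempty]; simp)
    (fun b r b' r' h => by rw [hempty]; exact Finset.disjoint_empty_left _)
    (fun b r w hw h => by rw [hempty] at hw; simp at hw)
    (fun b r i hi h => by rw [hempty] at h; simp at h)
    (fun b r i hi w hw h => by rw [hempty] at hw; simp at hw)
    (fun b r b' r' h => by rw [hempty] at h; simp at h)
    (fun h => h.elim)
    (by
      have h1 : (univ.image s).card ≤ 2 := by
        refine Finset.card_image_le.trans ?_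
        rw [Finset.card_univ, Fintype.card_bool]
      have := Finset.card_union_le S₀ (univ.image s)
      omega)
  refine ⟨d, ?_, ?_, ?_⟩
  · rw [hdS]
    have h1 : (univ.image s).card ≤ 2 := by
      refine Finset.card_image_le.trans ?_
      rw [Finset.card_univ, Fintype.card_bool]
    have := Finset.card_union_le S₀ (univ.image s)
    omega
  · rw [hdc]; exact id
  · rw [hdS]; exact Finset.subset_union_left

lemma classify_case2b {G : SimpleGraph (Fin n)} {k R : ℕ} {l : Fin k} {X L : Finset (Fin n)}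
    {c : Fin n} (hX : LeafSys G X) (hXk : k ≤ X.card)
    (hL : ∀ v ∈ L, dg G v = 1 ∧ G.Adj v c) (hLc : 2 * R + 2 * k + 2 ≤ L.card)
    (hn : 3 * k + 14 * R + 2 ≤ n) :
    ∃ d : GData G k R l, d.crit ∧ d.S = {c} := by
  have hcdeg : 2 ≤ (Nb G c).card := by
    refine le_trans (by omega : 2 ≤ L.card) (Finset.card_le_card fun w hw => ?_)
    exact mem_Nb.2 (hL w hw).2.symm
  set X' := X.filter (fun v => ¬ G.Adj v c) with hX'
  have hX'c : k ≤ X'.card + 1 := by
    have h1 : (X.filter (fun v => G.Adj v c)).card ≤ 1 := by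
      rw [Finset.card_le_one]
      intro a ha b hb
      by_contra hne
      rw [Finset.mem_filter] at ha hb
      exact hX.nocommon a ha.1 b hb.1 hne c ha.2 hb.2
    have h2 := Finset.card_filter_add_card_filter_not (s := X) (fun v => G.Adj v c)
    have h3 : X'.card = (X.filter (fun v => ¬ G.Adj v c)).card := rfl
    rw [h3]
    omega
  obtain ⟨x, hxX', x_inj⟩ := exists_choice l X' hX'c (by omega)
  have hxX : ∀ i, i ≠ l → x i ∈ X := fun i hi => (Finset.mem_filter.1 (hxX' i hi)).1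
  have hxc : ∀ i, i ≠ l → ¬ G.Adj (x i) c := fun i hi => (Finset.mem_filter.1 (hxX' i hi)).2
  set B : Finset (Fin n) := (univ.filter (fun i => i ≠ l)).biUnion (fun i => CN G (x i)) with hB
  have hBc : B.card ≤ 2 * k := by
    refine (Finset.card_biUnion_le_card_mul _ _ 2 fun i hi => ?_).trans ?_
    · refine (Finset.card_insert_le _ _).trans ?_
      have := hX.deg _ (hxX i (Finset.mem_filter.1 hi).2)
      unfold dg at this
      omega
    · have : (univ.filter (fun i : Fin k => i ≠ l)).card ≤ k := by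
        refine (Finset.card_le_univ _).trans ?_
        rw [Fintype.card_fin]
      omega
  have hLB : 2 * R ≤ (L \ B).card := by
    have := Finset.le_card_sdiff B L
    omega
  have hle : Fintype.card (Bool × Fin R) ≤ Fintype.card (L \ B : Finset (Fin n)) := by
    rw [Fintype.card_prod, Fintype.card_fin, Fintype.card_bool, Fintype.card_coe]
    exact hLB
  obtain ⟨em⟩ := Function.Embedding.nonempty_of_card_le hle
  set f : Bool → Fin R → Fin n := fun b r => (em (b, r) : Fin n) with hf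
  have hfM : ∀ b r, f b r ∈ L \ B := fun b r => (em (b, r)).2
  have hfL : ∀ b r, f b r ∈ L := fun b r => (Finset.mem_sdiff.1 (hfM b r)).1
  have hfB : ∀ b r, f b r ∉ B := fun b r => (Finset.mem_sdiff.1 (hfM b r)).2
  have f_inj : ∀ b r b' r', f b r = f b' r' → b = b' ∧ r = r' := by
    intro b r b' r' h
    have := em.injective (Subtype.ext h)
    exact ⟨congrArg Prod.fst this, congrArg Prod.snd this⟩
  have huniq : ∀ b r w, G.Adj (f b r) w → w = c :=
    fun b r w hw => dg_one_unique (hL _ (hfL b r)).1.le (hL _ (hfL b r)).2 hw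
  have hempty : ∀ b r, (Nb G (f b r)).erase c = ∅ := by
    intro b r
    rw [Finset.eq_empty_iff_forall_notMem]
    intro w hw
    exact Finset.ne_of_mem_erase hw (huniq b r w (mem_Nb.1 (Finset.mem_of_mem_erase hw)))
  have hself : ∀ v, v ∈ CN G v := fun v => mem_CN.2 (Or.inl rfl)
  have hNbCN : ∀ v, ∀ w ∈ Nb G v, w ∈ CN G v := fun v w hw => mem_CN.2 (Or.inr (mem_Nb.1 hw))
  have hCNB : ∀ i, i ≠ l → ∀ w ∈ CN G (x i), w ∈ B := by
    intro i hi w hw
    exact Finset.mem_biUnion.2 ⟨i, Finset.mem_filter.2 ⟨Finset.mem_univ _, hi⟩, hw⟩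
  have xdeg : ∀ i, i ≠ l → (Nb G (x i)).card ≤ 1 := fun i hi => hX.deg _ (hxX i hi)
  obtain ⟨d, hdc, hdS⟩ := build G k R l True {c} (fun _ => c) x f
    (fun b => Finset.mem_singleton_self _) (fun _ => rfl) (fun _ => rfl)
    (fun h => absurd trivial h)
    xdeg x_inj
    (fun i hi j hj h => hX.indep _ (hxX j hj) _ (hxX i hi) (mem_Nb.1 h))
    (fun i hi j hj hij => by
      rw [Finset.disjoint_left]
      intro w hw hw'
      exact hX.nocommon _ (hxX i hi) _ (hxX j hj) (fun h => hij (x_inj i hi j hj h)) w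
        (mem_Nb.1 hw) (mem_Nb.1 hw'))
    (fun i hi h => by
      have h1 := xdeg i hi
      rw [Finset.mem_singleton.1 h] at h1
      omega)
    (fun _ i hi w hw h => hxc i hi (Finset.mem_singleton.1 h ▸ mem_Nb.1 hw))
    f_inj
    (fun b r h => by
      have h1 := (hL _ (hfL b r)).1
      rw [Finset.mem_singleton.1 h] at h1
      unfold dg at h1
      omega)
    (fun b r i hi h => hfB b r (h ▸ hCNB i hi _ (hself _)))
    (fun b r i hi h => hfB b r (hCNB i hi _ (hNbCN _ _ h)))
    (fun b r => by rw [hempty]; simp)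
    (fun b r b' r' h => by rw [hempty]; exact Finset.disjoint_empty_left _)
    (fun b r w hw h => by rw [hempty] at hw; simp at hw)
    (fun b r i hi h => by rw [hempty] at h; simp at h)
    (fun b r i hi w hw h => by rw [hempty] at hw; simp at hw)
    (fun b r b' r' h => by rw [hempty] at h; simp at h)
    (fun _ => huniq)
    (by rw [Finset.card_singleton]; omega)
  exact ⟨d, by rw [hdc]; trivial, hdS⟩

theorem classify (k R m : ℕ) (hR : 2 ≤ R) : ∃ N Bd : ℕ, ∀ n, N ≤ n → ∀ G : SimpleGraph (Fin n),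
    ∑ v, dg G v + 2 * k ≤ 2 * n → ∀ S₀ : Finset (Fin n), S₀.card ≤ m → (∀ v ∈ S₀, 2 ≤ dg G v) →
    ∀ l : Fin k, ∃ d : GData G k R l, d.S.card ≤ S₀.card + 2 ∧
      ((¬ d.crit ∧ S₀ ⊆ d.S) ∨ (d.crit ∧ ∀ v ∉ d.S, dg G v ≤ Bd)) := by
  refine ⟨(3 + R) * (m + 2 * k + 8 * R) + m + 4 * k + 16 * R + 2,
    (3 + R) * (m + 2 * k + 8 * R), ?_⟩
  intro n hn G hsum S₀ hS₀c hS₀d l
  have h0 : 0 < n := by omega
  obtain ⟨X, hX, hXc⟩ := peel G
  have hXk : k ≤ X.card := by omega
  obtain ⟨x, hxX, x_inj⟩ := exists_choice l X (by omega) h0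
  have xdeg : ∀ i, i ≠ l → (Nb G (x i)).card ≤ 1 := fun i hi => hX.deg _ (hxX i hi)
  have x_ind : ∀ i, i ≠ l → ∀ j, j ≠ l → x i ∉ Nb G (x j) :=
    fun i hi j hj h => hX.indep _ (hxX j hj) _ (hxX i hi) (mem_Nb.1 h)
  have x_noc : ∀ i, i ≠ l → ∀ j, j ≠ l → i ≠ j → Disjoint (Nb G (x i)) (Nb G (x j)) := by
    intro i hi j hj hij
    rw [Finset.disjoint_left]
    intro w hw hw'
    exact hX.nocommon _ (hxX i hi) _ (hxX j hj) (fun h => hij (x_inj i hi j hj h)) w
      (mem_Nb.1 hw) (mem_Nb.1 hw')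
  have x_S : ∀ i, i ≠ l → x i ∉ S₀ := by
    intro i hi h
    have h1 := xdeg i hi
    have h2 := hS₀d _ h
    unfold dg at h2
    omega
  set B : Finset (Fin n) := (univ.filter (fun i => i ≠ l)).biUnion (fun i => CN G (x i)) with hB
  have hBc : B.card ≤ 2 * k := by
    refine (Finset.card_biUnion_le_card_mul _ _ 2 fun i hi => ?_).trans ?_
    · refine (Finset.card_insert_le _ _).trans ?_
      have := xdeg i (Finset.mem_filter.1 hi).2
      omega
    · have : (univ.filter (fun i : Fin k => i ≠ l)).card ≤ k := by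
        refine (Finset.card_le_univ _).trans ?_
        rw [Fintype.card_fin]
      omega
  have hCNB : ∀ i, i ≠ l → ∀ w ∈ CN G (x i), w ∈ B := by
    intro i hi w hw
    exact Finset.mem_biUnion.2 ⟨i, Finset.mem_filter.2 ⟨Finset.mem_univ _, hi⟩, hw⟩
  have hSpc : (S₀ ∪ B).card ≤ m + 2 * k := (Finset.card_union_le _ _).trans (by omega)
  rcases dichotomy G (S₀ ∪ B) R with ⟨M, hM, hfree⟩ | ⟨Z, hZ, hZc, hZ4⟩
  · obtain ⟨d, h1, h2, h3⟩ := classify_case1 (S₀ := S₀) (Sp := S₀ ∪ B) (m := m)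
      Finset.subset_union_left hSpc hS₀c xdeg x_inj x_ind x_noc x_S
      (fun i hi w hw => Finset.mem_union_right _ (hCNB i hi w hw)) hM hfree (by omega)
    exact ⟨d, h1, Or.inl ⟨h2, h3⟩⟩
  · have hZb : Z.card ≤ m + 2 * k + 8 * R := by omega
    have hlv := leaves (by omega) hZ4
    set L : Fin n → Finset (Fin n) := fun z => (Lf G Z).filter (fun x => G.Adj x z) with hL
    have hLf : (Lf G Z).card ≤ ∑ z ∈ Z, (L z).card := by
      refine le_trans (Finset.card_le_card ?_) Finset.card_biUnion_le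
      intro v hv
      obtain ⟨z, hz, hvz⟩ := (Finset.mem_filter.1 hv).2.2.2
      exact Finset.mem_biUnion.2 ⟨z, hz, Finset.mem_filter.2 ⟨hv, hvz⟩⟩
    by_cases h2 : ∃ z₁ ∈ Z, ∃ z₂ ∈ Z, z₁ ≠ z₂ ∧ R ≤ (L z₁).card ∧ R ≤ (L z₂).card
    · obtain ⟨z₁, hz₁, z₂, hz₂, hne, hR1, hR2⟩ := h2
      obtain ⟨d, h1, h2, h3⟩ := classify_case2a (S₀ := S₀) (Z := Z) (m := m)
        (Finset.subset_union_left.trans hZ) hR hS₀c xdeg x_inj x_ind x_noc x_S
        (fun i hi w hw => hZ (Finset.mem_union_right _ (hCNB i hi w hw)))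
        (fun b => if b then z₁ else z₂) (by simpa using hne)
        (fun b => by cases b <;> simp [hz₁, hz₂])
        (fun b => by
          cases b
          · exact hR2
          · exact hR1) (by omega)
      exact ⟨d, h1, Or.inl ⟨h2, h3⟩⟩
    · push Not at h2
      have hZR : (3 + R) * Z.card ≤ (3 + R) * (m + 2 * k + 8 * R) := Nat.mul_le_mul_left _ hZb
      obtain ⟨c, hcZ, hcR⟩ : ∃ c ∈ Z, R ≤ (L c).card := by
        by_contra hcon
        push Not at hcon
        have : ∑ z ∈ Z, (L z).card ≤ ∑ z ∈ Z, R := Finset.sum_le_sum fun z hz => (hcon z hz).le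
        rw [Finset.sum_const, smul_eq_mul] at this
        nlinarith
      have hcbig : n ≤ (L c).card + (3 + R) * Z.card := by
        have e1 : ∑ z ∈ Z, (L z).card = (L c).card + ∑ z ∈ Z.erase c, (L z).card :=
          (Finset.add_sum_erase _ _ hcZ).symm
        have e2 : ∑ z ∈ Z.erase c, (L z).card ≤ ∑ z ∈ Z.erase c, R := by
          refine Finset.sum_le_sum fun z hz => ?_
          exact (h2 c hcZ z (Finset.mem_of_mem_erase hz)
            (Finset.ne_of_mem_erase hz).symm hcR).le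
        rw [Finset.sum_const, smul_eq_mul] at e2
        have e3 : (Z.erase c).card * R ≤ Z.card * R :=
          Nat.mul_le_mul_right _ (Finset.card_le_card (Finset.erase_subset _ _))
        nlinarith
      have hLprop : ∀ v ∈ L c, dg G v = 1 ∧ G.Adj v c := by
        intro v hv
        obtain ⟨hv1, hv2⟩ := Finset.mem_filter.1 hv
        exact ⟨(Finset.mem_filter.1 hv1).2.2.1, hv2⟩
      obtain ⟨d, h1, h3⟩ := classify_case2b (R := R) (l := l) hX hXk hLprop (by omega) (by omega)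
      refine ⟨d, ?_, Or.inr ⟨h1, ?_⟩⟩
      · rw [h3, Finset.card_singleton]; omega
      · intro v hv
        rw [h3, Finset.mem_singleton] at hv
        have h4 : dg G v ≤ ((L c)ᶜ).card := by
          refine Finset.card_le_card fun w hw => ?_
          rw [Finset.mem_compl]
          intro hwL
          obtain ⟨hw1, hw2⟩ := hLprop w hwL
          exact hv (dg_one_unique hw1.le hw2 (mem_Nb.1 hw).symm)
        rw [Finset.card_compl, Fintype.card_fin] at h4
        omega

end Pool.Agent.helper4.Pack
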