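import Mathlib
import Pool.Agent.helper4.Pack.Cls

set_option autoImplicit false
set_option linter.unusedSectionVars false
set_option linter.unusedVariables false

open Finset Classical

namespace Pool.Agent.helper4.Pack

variable {n : ℕ}

/-- Symbols for the vertices used in the design. -/
inductive Sym (n k R : ℕ)
  | sp (b : Fin n)
  | x (i : Fin k)
  | y (i : Fin k)
  | f (t : Bool) (r : Fin R)
  | yy (t : Bool) (r : Fin R) (e : Fin 3)

/-- Abstract locations: `((i, b), none)` is the location of the special vertex `b` of the graph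
`i`, and `((i, b), some (j, e))` are auxiliary locations. -/
abbrev Loc (n k : ℕ) : Type := (Fin k × Fin n) × Option (Fin k × Fin 3)

section

variable {k R : ℕ} {G : Fin k → SimpleGraph (Fin n)} (d : ∀ l, GData (G l) k R l)
  (enc : Loc n k → Fin R)

/-- The graph `j` uses its vertex `x i` at the centre of the critical graph `i`. -/
def Served (j i : Fin k) : Prop := (d i).crit ∧ j ≠ i ∧ ¬ ((d j).crit ∧ i < j)

/-- Which sort of filler to use at the location of the special vertex `b` of `i`. -/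
noncomputable def tt (l i : Fin k) (b : Fin n) : Bool :=
  if l < i then (if b = (d i).s true then true else false)
  else (if b = (d i).s false then true else false)

/-- Filler not attached to `z`. -/
noncomputable def ta (l : Fin k) (z : Fin n) : Bool :=
  if (d l).s false = z then true else false

/-- The symbol at a location. -/
noncomputable def sym (l : Fin k) : Loc n k → Sym n k R
  | ((i, b), none) =>
    if i = l then Sym.sp b
    else if (d i).crit then
      (if (d l).crit ∧ i < l then Sym.f false (enc ((i, b), none)) else Sym.x i)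
    else if (d l).crit then
      (if b = (d i).y l then Sym.x i else Sym.f false (enc ((i, b), none)))
    else Sym.f (tt d l i b) (enc ((i, b), none))
  | ((i, b), some (j, e)) =>
    if (d i).crit then
      (if e = 0 then
        (if Served d j i ∧ (d j).y i ∉ (d j).S then
          (if l = j then Sym.y i
            else if l = i then Sym.x j
            else Sym.f false (enc ((i, b), some (j, e))))
        else Sym.f false (enc ((i, b), some (j, e))))
      else if e = 1 then
        (if Served d j i then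
          (if l = i then Sym.y j
            else if l = j then Sym.f (ta d l ((d j).y i)) (enc ((i, b), some (j, e)))
            else Sym.f false (enc ((i, b), some (j, e))))
        else Sym.f false (enc ((i, b), some (j, e))))
      else Sym.f false (enc ((i, b), some (j, e))))
    else
      (if l = i then Sym.f (ta d l b) (enc ((i, b), some (j, e)))
        else if l = j ∧ ¬ (d l).crit then Sym.yy (tt d l i b) (enc ((i, b), none)) e
        else Sym.f false (enc ((i, b), some (j, e))))

/-- The value of a symbol. -/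
def val (l : Fin k) : Sym n k R → Fin n
  | Sym.sp b => b
  | Sym.x i => (d l).x i
  | Sym.y i => (d l).y i
  | Sym.f t r => (d l).f t r
  | Sym.yy t r e => (d l).yy t r e

/-- Admissible locations. -/
noncomputable def LS : Finset (Loc n k) := univ.filter (fun p => p.1.2 ∈ (d p.1.1).S)

/-- Admissible symbols. -/
def Ok (l : Fin k) : Sym n k R → Prop
  | Sym.sp b => b ∈ (d l).S
  | Sym.x i => i ≠ l
  | Sym.y i => i ≠ l ∧ (d l).y i ∉ (d l).S
  | Sym.f _ _ => True
  | Sym.yy _ _ _ => True


lemma mem_LS {p : Loc n k} : p ∈ LS d ↔ p.1.2 ∈ (d p.1.1).S := by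
  simp [LS]

lemma sym_x {l i : Fin k} {p : Loc n k} (h : sym d enc l p = Sym.x i) :
    (∃ b, p = ((i, b), none) ∧ i ≠ l ∧
      (Served d l i ∨ (¬ (d i).crit ∧ (d l).crit ∧ b = (d i).y l))) ∨
    (∃ b, p = ((l, b), some (i, 0)) ∧ i ≠ l ∧ Served d i l ∧ (d i).y l ∉ (d i).S) := by
  rcases p with ⟨⟨i', b⟩, _ | ⟨j, e⟩⟩
  · simp only [sym] at h
    split_ifs at h with h1 h2 h3 h4 h5
    · obtain rfl := Sym.x.inj h
      exact Or.inl ⟨b, rfl, h1, Or.inl ⟨h2, fun h => h1 h.symm, h3⟩⟩
    · obtain rfl := Sym.x.inj h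
      exact Or.inl ⟨b, rfl, h1, Or.inr ⟨h2, h4, h5⟩⟩
  · simp only [sym] at h
    split_ifs at h with h1 h2 h3 h4 h5
    obtain rfl := Sym.x.inj h
    subst h5 h2
    exact Or.inr ⟨b, rfl, h3.1.2.1, h3.1, h3.2⟩

lemma sym_y {l i : Fin k} {p : Loc n k} (h : sym d enc l p = Sym.y i) :
    (∃ b, p = ((i, b), some (l, 0)) ∧ i ≠ l ∧ Served d l i ∧ (d l).y i ∉ (d l).S) ∨
    (∃ b, p = ((l, b), some (i, 1)) ∧ i ≠ l ∧ Served d i l) := by
  rcases p with ⟨⟨i', b⟩, _ | ⟨j, e⟩⟩
  · simp only [sym] at h
    split_ifs at h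
  · simp only [sym] at h
    split_ifs at h with h1 h2 h3 h4 h5 h6 h7 h8
    · obtain rfl := Sym.y.inj h
      subst h4 h2
      exact Or.inl ⟨b, rfl, fun h => h3.1.2.1 h.symm, h3.1, h3.2⟩
    · obtain rfl := Sym.y.inj h
      subst h8 h6
      exact Or.inr ⟨b, rfl, h7.2.1, h7⟩

lemma sym_sp {l : Fin k} {b : Fin n} {p : Loc n k} (h : sym d enc l p = Sym.sp b) :
    p = ((l, b), none) := by
  rcases p with ⟨⟨i', b⟩, _ | ⟨j, e⟩⟩
  · simp only [sym] at h
    split_ifs at h with h1
    obtain rfl := Sym.sp.inj h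
    rw [h1]
  · simp only [sym] at h
    split_ifs at h

lemma sym_yy {l : Fin k} {t : Bool} {r : Fin R} {e : Fin 3} {p : Loc n k}
    (h : sym d enc l p = Sym.yy t r e) :
    ∃ i b, p = ((i, b), some (l, e)) ∧ l ≠ i ∧ ¬ (d i).crit ∧ ¬ (d l).crit ∧
      t = tt d l i b ∧ r = enc ((i, b), none) := by
  rcases p with ⟨⟨i', b⟩, _ | ⟨j, e⟩⟩
  · simp only [sym] at h
    split_ifs at h
  · simp only [sym] at h
    split_ifs at h with h1 h2 h3 h4 h5 h6 h7 h8 h9 h10 h11
    obtain ⟨rfl, rfl, rfl⟩ := Sym.yy.inj h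
    obtain ⟨rfl, h12⟩ := h11
    exact ⟨i', b, rfl, h10, h1, h12, rfl, rfl⟩

lemma sym_f {l : Fin k} {t : Bool} {r : Fin R} {p : Loc n k}
    (h : sym d enc l p = Sym.f t r) : r = enc p := by
  rcases p with ⟨⟨i', b⟩, _ | ⟨j, e⟩⟩
  · simp only [sym] at h
    split_ifs at h <;> exact (Sym.f.inj h).2.symm
  · simp only [sym] at h
    split_ifs at h <;> exact (Sym.f.inj h).2.symm


lemma sym_f_none {l i : Fin k} {b : Fin n} {t : Bool} {r : Fin R}
    (h : sym d enc l ((i, b), none) = Sym.f t r) :
    ((d l).crit ∧ (d i).crit ∧ i < l) ∨ ((d l).crit ∧ ¬ (d i).crit ∧ b ≠ (d i).y l) ∨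
      (¬ (d l).crit ∧ ¬ (d i).crit ∧ t = tt d l i b) := by
  simp only [sym] at h
  split_ifs at h with h1 h2 h3 h4 h5
  · exact Or.inl ⟨h3.1, h2, h3.2⟩
  · exact Or.inr (Or.inl ⟨h4, h2, h5⟩)
  · exact Or.inr (Or.inr ⟨h4, h2, (Sym.f.inj h).1.symm⟩)

lemma sym_f_own {l j : Fin k} {b : Fin n} {e : Fin 3} {t : Bool} {r : Fin R}
    (hl : ¬ (d l).crit) (h : sym d enc l ((l, b), some (j, e)) = Sym.f t r) : t = ta d l b := by
  simp only [sym, if_neg hl, if_true] at h
  exact (Sym.f.inj h).1.symm

lemma sym_f_one {l i : Fin k} {b : Fin n} {t : Bool} {r : Fin R} (hs : Served d l i)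
    (h : sym d enc l ((i, b), some (l, 1)) = Sym.f t r) : t = ta d l ((d l).y i) := by
  have h1 : (d i).crit := hs.1
  have h2 : l ≠ i := hs.2.1
  simp only [sym, if_pos h1, if_pos hs, if_neg h2, if_true] at h
  simp at h
  exact h.1.symm

lemma served_asymm {i j : Fin k} (h : Served d i j) (h' : Served d j i) : False := by
  obtain ⟨h1, h2, h3⟩ := h
  obtain ⟨h4, h5, h6⟩ := h'
  rcases lt_trichotomy i j with hlt | heq | hlt
  · exact h6 ⟨h1, hlt⟩
  · exact h2 heq
  · exact h3 ⟨h4, hlt⟩

lemma s_ta {l : Fin k} {z : Fin n} (h : (d l).crit → (d l).s false ≠ z) :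
    (d l).s (ta d l z) ≠ z := by
  unfold ta
  split_ifs with h1
  · intro h2
    by_cases hc : (d l).crit
    · exact h hc h1
    · exact (d l).ncrit_s hc (h2.trans h1.symm)
  · exact h1

/-- Links between symbols. -/
def Link (l : Fin k) : Sym n k R → Sym n k R → Prop
  | Sym.x i, Sym.y i' => i = i'
  | Sym.x i, Sym.sp b => b = (d l).y i
  | Sym.f t _, Sym.sp b => b = (d l).s t
  | Sym.f t r, Sym.yy t' r' _ => t = t' ∧ r = r' ∧ ¬ (d l).crit
  | _, _ => False

/-- Restricted symbols. -/
def Restr : Sym n k R → Prop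
  | Sym.x _ => True
  | Sym.f _ _ => True
  | _ => False

lemma link_restr {l : Fin k} {a b : Sym n k R} (h : Link d l a b) : Restr a ∧ ¬ Restr b := by
  cases a <;> cases b <;> simp_all [Link, Restr]

lemma link_of_adj {l : Fin k} {a b : Sym n k R} (ha : Ok d l a) (hb : Ok d l b) (hr : Restr a)
    (h : (G l).Adj (val d l a) (val d l b)) : Link d l a b := by
  cases a with
  | sp _ => exact hr.elim
  | y _ => exact hr.elim
  | yy _ _ _ => exact hr.elim
  | x i =>
    have hw := (d l).x_adj i ha _ h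
    cases b with
    | sp b => exact hw
    | x i' => exact absurd hw ((d l).x_ne_y i' hb i ha)
    | y i' => exact ((d l).y_inj i' hb.1 i ha hw).symm
    | f t r => exact absurd hw ((d l).f_y t r i ha)
    | yy t r e => exact absurd hw ((d l).yy_y t r e i ha)
  | f t r =>
    rcases (d l).f_adj t r _ h with hw | ⟨e, hw⟩
    · have hS : val d l b ∈ (d l).S := hw ▸ (d l).sS t
      cases b with
      | sp b => exact hw
      | x i' => exact absurd hS ((d l).x_S i' hb)
      | y i' => exact absurd hS hb.2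
      | f t r => exact absurd hS ((d l).f_S t r)
      | yy t r e => exact absurd hS ((d l).yy_S t r e)
    · cases b with
      | sp b => exact absurd (show (d l).yy t r e ∈ (d l).S from hw ▸ hb) ((d l).yy_S t r e)
      | x i' => exact absurd hw.symm ((d l).yy_x t r e i' hb)
      | y i' => exact absurd hw.symm ((d l).yy_y t r e i' hb.1)
      | f t' r' => exact absurd hw ((d l).f_yy t' r' t r e)
      | yy t' r' e' =>
        obtain ⟨h1, h2, h3⟩ := (d l).yy_inj _ _ _ _ _ _ hw
        refine ⟨h1.symm, h2.symm, fun hc => ?_⟩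
        have := (d l).crit_f hc t r _ h
        exact (d l).yy_S t' r' e' (show (d l).yy t' r' e' ∈ (d l).S from
          (show (d l).yy t' r' e' = (d l).s t from this) ▸ (d l).sS t)

lemma crit_eq {i : Fin k} {b : Fin n} {o : Option (Fin k × Fin 3)} (hc : (d i).crit)
    (h : (((i, b), o) : Loc n k) ∈ LS d) : b = (d i).s false := by
  have := (mem_LS d).1 h
  simp only at this
  rw [(d i).crit_S hc] at this
  exact Finset.mem_singleton.1 this

lemma ok_sym {l : Fin k} {p : Loc n k} (hp : p ∈ LS d) : Ok d l (sym d enc l p) := by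
  cases h : sym d enc l p with
  | sp b =>
    have := sym_sp d enc h
    rw [this] at hp
    exact (mem_LS d).1 hp
  | x i =>
    rcases sym_x d enc h with ⟨b, _, h2, _⟩ | ⟨b, _, h2, _⟩
    · exact h2
    · exact h2
  | y i =>
    rcases sym_y d enc h with ⟨b, _, h2, _, h3⟩ | ⟨b, _, h2, h3⟩
    · exact ⟨h2, h3⟩
    · exact ⟨h2, (d l).crit_y h3.1 i h2⟩
  | f t r => trivial
  | yy t r e => trivial

lemma own {l l' : Fin k} (hne : l ≠ l') (p : Loc n k) :
    Restr (sym d enc l p) ∨ Restr (sym d enc l' p) := by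
  by_contra hcon
  rw [not_or] at hcon
  obtain ⟨h1, h2⟩ := hcon
  cases h : sym d enc l p with
  | x i => rw [h] at h1; exact h1 trivial
  | f t r => rw [h] at h1; exact h1 trivial
  | sp b =>
    have e1 := sym_sp d enc h
    cases h' : sym d enc l' p with
    | x i => rw [h'] at h2; exact h2 trivial
    | f t r => rw [h'] at h2; exact h2 trivial
    | sp b' =>
      have e2 := sym_sp d enc h'
      rw [e1] at e2
      simp only [Prod.mk.injEq] at e2
      exact hne e2.1.1
    | y i =>
      rcases sym_y d enc h' with ⟨b', e2, _⟩ | ⟨b', e2, _⟩ <;>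
      · rw [e1] at e2
        simp at e2
    | yy t r e =>
      obtain ⟨i, b', e2, _⟩ := sym_yy d enc h'
      rw [e1] at e2
      simp at e2
  | y i =>
    cases h' : sym d enc l' p with
    | x i => rw [h'] at h2; exact h2 trivial
    | f t r => rw [h'] at h2; exact h2 trivial
    | sp b' =>
      have e2 := sym_sp d enc h'
      rcases sym_y d enc h with ⟨b', e1, _⟩ | ⟨b', e1, _⟩ <;>
      · rw [e1] at e2
        simp at e2
    | y i' =>
      rcases sym_y d enc h with ⟨b, e1, _⟩ | ⟨b, e1, _⟩ <;>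
      rcases sym_y d enc h' with ⟨b', e2, _⟩ | ⟨b', e2, _⟩ <;>
      · rw [e1] at e2
        simp only [Prod.mk.injEq, Option.some.injEq] at e2
        first
          | exact hne e2.2.1
          | exact hne e2.1.1
          | exact absurd e2.2.2 (by decide)
    | yy t r e =>
      obtain ⟨i', b', e2, _, h3, _⟩ := sym_yy d enc h'
      rcases sym_y d enc h with ⟨b, e1, _⟩ | ⟨b, e1, _, hs⟩
      · rw [e1] at e2
        simp only [Prod.mk.injEq, Option.some.injEq] at e2
        exact hne e2.2.1
      · rw [e1] at e2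
        simp only [Prod.mk.injEq, Option.some.injEq] at e2
        exact h3 (e2.1.1 ▸ hs.1)
  | yy t r e =>
    obtain ⟨i, b, e1, _, h3, _⟩ := sym_yy d enc h
    cases h' : sym d enc l' p with
    | x i => rw [h'] at h2; exact h2 trivial
    | f t r => rw [h'] at h2; exact h2 trivial
    | sp b' =>
      have e2 := sym_sp d enc h'
      rw [e1] at e2
      simp at e2
    | y i' =>
      rcases sym_y d enc h' with ⟨b', e2, _⟩ | ⟨b', e2, _, hs⟩
      · rw [e1] at e2
        simp only [Prod.mk.injEq, Option.some.injEq] at e2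
        exact hne e2.2.1
      · rw [e1] at e2
        simp only [Prod.mk.injEq, Option.some.injEq] at e2
        exact h3 (e2.1.1 ▸ hs.1)
    | yy t r e =>
      obtain ⟨i', b', e2, _⟩ := sym_yy d enc h'
      rw [e1] at e2
      simp only [Prod.mk.injEq, Option.some.injEq] at e2
      exact hne e2.2.1

lemma sym_inj {l : Fin k} (henc : ∀ p ∈ LS d, ∀ q ∈ LS d, enc p = enc q → p = q)
    {p q : Loc n k} (hp : p ∈ LS d) (hq : q ∈ LS d) (h : sym d enc l p = sym d enc l q) :
    p = q := by
  cases h' : sym d enc l q with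
  | sp b => rw [sym_sp d enc (h.trans h'), sym_sp d enc h']
  | f t r => exact henc p hp q hq ((sym_f d enc (h.trans h')).symm.trans (sym_f d enc h'))
  | yy t r e =>
    obtain ⟨i, b, e1, _, _, _, _, h1⟩ := sym_yy d enc (h.trans h')
    obtain ⟨i', b', e2, _, _, _, _, h2⟩ := sym_yy d enc h'
    have := henc ((i, b), none) (by
      rw [e1] at hp
      exact (mem_LS d).2 (show b ∈ (d i).S from (mem_LS d).1 hp)) ((i', b'), none) (by
      rw [e2] at hq
      exact (mem_LS d).2 (show b' ∈ (d i').S from (mem_LS d).1 hq)) (h1.symm.trans h2)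
    simp only [Prod.mk.injEq, and_true] at this
    rw [e1, e2, this.1, this.2]
  | y i =>
    rcases sym_y d enc (h.trans h') with ⟨b, e1, _, hs, _⟩ | ⟨b, e1, _, hs⟩ <;>
    rcases sym_y d enc h' with ⟨b', e2, _, hs', _⟩ | ⟨b', e2, _, hs'⟩
    · rw [e1] at hp
      rw [e2] at hq
      rw [e1, e2, crit_eq d hs.1 hp, crit_eq d hs.1 hq]
    · exact (served_asymm d hs hs').elim
    · exact (served_asymm d hs hs').elim
    · rw [e1] at hp
      rw [e2] at hq
      rw [e1, e2, crit_eq d hs.1 hp, crit_eq d hs.1 hq]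
  | x i =>
    rcases sym_x d enc (h.trans h') with ⟨b, e1, _, hs | ⟨hs1, hs2, hs3⟩⟩ | ⟨b, e1, _, hs, hs2⟩ <;>
    rcases sym_x d enc h' with ⟨b', e2, _, hs' | ⟨hs1', hs2', hs3'⟩⟩ | ⟨b', e2, _, hs', hs2'⟩
    · rw [e1] at hp
      rw [e2] at hq
      rw [e1, e2, crit_eq d hs.1 hp, crit_eq d hs.1 hq]
    · exact absurd hs.1 hs1'
    · exact (served_asymm d hs hs').elim
    · exact absurd hs'.1 hs1
    · rw [e1, e2, hs3, hs3']
    · rw [e1] at hp
      have := (mem_LS d).1 hp
      simp only at this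
      rw [hs3] at this
      exact absurd this hs2'
    · exact (served_asymm d hs hs').elim
    · rw [e2] at hq
      have := (mem_LS d).1 hq
      simp only at this
      rw [hs3'] at this
      exact absurd this hs2
    · rw [e1] at hp
      rw [e2] at hq
      rw [e1, e2, crit_eq d hs.1 hp, crit_eq d hs.1 hq]


lemma link_cases {l : Fin k} {a b : Sym n k R} (h : Link d l a b) :
    (∃ i, a = Sym.x i ∧ b = Sym.y i) ∨ (∃ i, a = Sym.x i ∧ b = Sym.sp ((d l).y i)) ∨
    (∃ t r, a = Sym.f t r ∧ b = Sym.sp ((d l).s t)) ∨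
    (∃ t r e, a = Sym.f t r ∧ b = Sym.yy t r e ∧ ¬ (d l).crit) := by
  cases a <;> cases b <;> simp_all [Link]


lemma ncrit_of_sp {l i : Fin k} {p : Loc n k} (hp : p ∈ LS d) (hi : i ≠ l)
    (h : sym d enc l p = Sym.sp ((d l).y i)) : ¬ (d l).crit := by
  intro hc
  have h1 := sym_sp d enc h
  rw [h1] at hp
  exact (d l).crit_y hc i hi ((mem_LS d).1 hp)

lemma sym_x_ne {l i : Fin k} {p : Loc n k} (h : sym d enc l p = Sym.x i) : i ≠ l := by
  rcases sym_x d enc h with ⟨b, _, h, _⟩ | ⟨b, _, h, _⟩ <;> exact h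

section combos

variable {l l' : Fin k} (hne : l ≠ l') {p q : Loc n k} (hp : p ∈ LS d) (hq : q ∈ LS d)
include hne hp hq

lemma c11 {i i' : Fin k} (h1 : sym d enc l p = Sym.x i) (h2 : sym d enc l q = Sym.y i)
    (h3 : sym d enc l' q = Sym.x i') (h4 : sym d enc l' p = Sym.y i') : False := by
  have e1 := sym_x d enc h1
  have e2 := sym_y d enc h2
  have e3 := sym_x d enc h3
  have e4 := sym_y d enc h4
  have e5 := @served_asymm _ _ _ _ d l l'
  grind

lemma c12 {i i' : Fin k} (h1 : sym d enc l p = Sym.x i) (h2 : sym d enc l q = Sym.y i)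
    (h3 : sym d enc l' q = Sym.x i') (h4 : sym d enc l' p = Sym.sp ((d l').y i')) : False := by
  have e1 := sym_x d enc h1
  have e2 := sym_y d enc h2
  have e3 := sym_x d enc h3
  have e4 := sym_sp d enc h4
  have e5 : ¬ (d l').crit := ncrit_of_sp d enc hp (sym_x_ne d enc h3) h4
  have e6 : Served d l l' → (d l').crit := fun h => h.1
  grind

lemma c13 {i : Fin k} {t : Bool} {r : Fin R}
    (h1 : sym d enc l p = Sym.x i) (h2 : sym d enc l q = Sym.y i)
    (h3 : sym d enc l' q = Sym.f t r) (h4 : sym d enc l' p = Sym.sp ((d l').s t)) : False := by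
  have e4 := sym_sp d enc h4
  rcases sym_y d enc h2 with ⟨b, e2, _, hs, hy⟩ | ⟨b, e2, hi, hs⟩
  · have e1 := sym_x d enc h1
    have hi : i = l' := by grind
    subst hi
    rw [e2] at h3
    have h5 : sym d enc i ((i, b), some (l, 0)) = Sym.x l := by
      simp only [sym, if_pos hs.1, if_true, if_pos (And.intro hs hy), if_neg hne.symm]
    rw [h5] at h3
    simp at h3
  · have e1 := sym_x d enc h1
    have hi : i = l' := by grind
    subst hi
    rw [e2] at h3
    have h5 := sym_f_one d enc hs h3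
    have h6 : (d i).s t ≠ (d i).y l := by
      rw [h5]
      exact s_ta d fun hc h => (d i).crit_y hc l hne (h ▸ (d i).sS false)
    rcases e1 with ⟨b', e1, _, hs' | ⟨_, _, h7⟩⟩ | ⟨b', e1, _⟩
    · exact served_asymm d hs hs'
    · grind
    · grind

lemma c14 {i : Fin k} {t : Bool} {r : Fin R} {e : Fin 3}
    (h1 : sym d enc l p = Sym.x i) (h2 : sym d enc l q = Sym.y i)
    (h3 : sym d enc l' q = Sym.f t r) (h4 : sym d enc l' p = Sym.yy t r e) : False := by
  have e1 := sym_x d enc h1
  have e4 := sym_yy d enc h4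
  have e5 : Served d i l → (d l).crit := fun h => h.1
  grind

lemma c22 {i i' : Fin k} (h1 : sym d enc l p = Sym.x i) (h2 : sym d enc l q = Sym.sp ((d l).y i))
    (h3 : sym d enc l' q = Sym.x i') (h4 : sym d enc l' p = Sym.sp ((d l').y i')) : False := by
  have e1 := sym_x d enc h1
  have e2 := sym_sp d enc h2
  have e3 := sym_x d enc h3
  have e4 := sym_sp d enc h4
  have e5 : ¬ (d l').crit := ncrit_of_sp d enc hp (sym_x_ne d enc h3) h4
  have e6 : ¬ (d l).crit := ncrit_of_sp d enc hq (sym_x_ne d enc h1) h2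
  have e7 : Served d l l' → (d l').crit := fun h => h.1
  have e8 : Served d l' l → (d l).crit := fun h => h.1
  grind

lemma c23 {i : Fin k} {t : Bool} {r : Fin R}
    (h1 : sym d enc l p = Sym.x i) (h2 : sym d enc l q = Sym.sp ((d l).y i))
    (h3 : sym d enc l' q = Sym.f t r) (h4 : sym d enc l' p = Sym.sp ((d l').s t)) : False := by
  have e1 := sym_x d enc h1
  have e2 := sym_sp d enc h2
  have e4 := sym_sp d enc h4
  have e6 : ¬ (d l).crit := ncrit_of_sp d enc hq (sym_x_ne d enc h1) h2
  rw [e2] at h3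
  have e3 := sym_f_none d enc h3
  have e7 : Served d l l' → (d l').crit := fun h => h.1
  have e8 : Served d l' l → (d l).crit := fun h => h.1
  grind

lemma c24 {i : Fin k} {t : Bool} {r : Fin R} {e : Fin 3}
    (h1 : sym d enc l p = Sym.x i) (h2 : sym d enc l q = Sym.sp ((d l).y i))
    (h3 : sym d enc l' q = Sym.f t r) (h4 : sym d enc l' p = Sym.yy t r e) : False := by
  have e1 := sym_x d enc h1
  have e4 := sym_yy d enc h4
  have e5 : Served d i l → (d l).crit := fun h => h.1
  grind

lemma c33 {t t' : Bool} {r r' : Fin R}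
    (h1 : sym d enc l p = Sym.f t r) (h2 : sym d enc l q = Sym.sp ((d l).s t))
    (h3 : sym d enc l' q = Sym.f t' r') (h4 : sym d enc l' p = Sym.sp ((d l').s t')) : False := by
  have e2 := sym_sp d enc h2
  have e4 := sym_sp d enc h4
  rw [e4] at h1
  rw [e2] at h3
  have n1 := (d l).ncrit_s
  have n2 := (d l').ncrit_s
  rcases sym_f_none d enc h1 with ⟨a1, a2, a3⟩ | ⟨a1, a2, a3⟩ | ⟨a1, a2, a3⟩ <;>
  rcases sym_f_none d enc h3 with ⟨b1, b2, b3⟩ | ⟨b1, b2, b3⟩ | ⟨b1, b2, b3⟩
  · exact absurd a3 (not_lt.2 b3.le)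
  · exact b2 a1
  · exact b2 a1
  · exact a2 b1
  · exact a2 b1
  · exact b2 a1
  · exact a1 b2
  · exact a2 b1
  · have n1 := n1 a1
    have n2 := n2 a2
    unfold tt at a3 b3
    rcases lt_or_gt_of_ne hne with hlt | hlt
    · rw [if_pos hlt] at a3
      rw [if_neg (not_lt.2 hlt.le)] at b3
      split_ifs at a3 b3 <;> simp_all
    · rw [if_neg (not_lt.2 hlt.le)] at a3
      rw [if_pos hlt] at b3
      split_ifs at a3 b3 <;> simp_all

lemma c34 (henc : ∀ p ∈ LS d, ∀ q ∈ LS d, enc p = enc q → p = q)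
    {t t' : Bool} {r r' : Fin R} {e : Fin 3} (hc : ¬ (d l').crit)
    (h1 : sym d enc l p = Sym.f t r) (h2 : sym d enc l q = Sym.sp ((d l).s t))
    (h3 : sym d enc l' q = Sym.f t' r') (h4 : sym d enc l' p = Sym.yy t' r' e) : False := by
  have e2 := sym_sp d enc h2
  obtain ⟨i, b, e4, a1, a2, a3, a4, a5⟩ := sym_yy d enc h4
  have e3 := sym_f d enc h3
  have e6 : (((i, b), none) : Loc n k) ∈ LS d := by
    rw [e4] at hp
    exact (mem_LS d).2 (show b ∈ (d i).S from (mem_LS d).1 hp)
  have e7 := henc _ e6 q hq (a5.symm.trans e3)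
  rw [e2] at e7
  simp only [Prod.mk.injEq, and_true] at e7
  obtain ⟨rfl, rfl⟩ := e7
  rw [e4] at h1
  have e8 := sym_f_own d enc a2 h1
  exact s_ta d (fun hc' => absurd hc' a2) (show (d i).s (ta d i ((d i).s t)) = (d i).s t from e8 ▸ rfl)

lemma c44 (henc : ∀ p ∈ LS d, ∀ q ∈ LS d, enc p = enc q → p = q)
    {t t' : Bool} {r r' : Fin R} {e e' : Fin 3}
    (h1 : sym d enc l p = Sym.f t r) (h2 : sym d enc l q = Sym.yy t r e)
    (h3 : sym d enc l' q = Sym.f t' r') (h4 : sym d enc l' p = Sym.yy t' r' e') : False := by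
  obtain ⟨i, b, e4, a1, a2, a3, a4, a5⟩ := sym_yy d enc h4
  obtain ⟨i', b', e2, _⟩ := sym_yy d enc h2
  have e3 := sym_f d enc h3
  have e6 : (((i, b), none) : Loc n k) ∈ LS d := by
    rw [e4] at hp
    exact (mem_LS d).2 (show b ∈ (d i).S from (mem_LS d).1 hp)
  have e7 := henc _ e6 q hq (a5.symm.trans e3)
  rw [e2] at e7
  simp at e7

end combos

lemma noLink (henc : ∀ p ∈ LS d, ∀ q ∈ LS d, enc p = enc q → p = q)
    {l l' : Fin k} (hne : l ≠ l') {p q : Loc n k} (hp : p ∈ LS d) (hq : q ∈ LS d)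
    (h : Link d l (sym d enc l p) (sym d enc l q))
    (h' : Link d l' (sym d enc l' q) (sym d enc l' p)) : False := by
  rcases link_cases d h with ⟨i, h1, h2⟩ | ⟨i, h1, h2⟩ | ⟨t, r, h1, h2⟩ | ⟨t, r, e, h1, h2, hc⟩ <;>
  rcases link_cases d h' with
    ⟨i', h3, h4⟩ | ⟨i', h3, h4⟩ | ⟨t', r', h3, h4⟩ | ⟨t', r', e', h3, h4, hc'⟩
  · exact c11 d enc hne hp hq h1 h2 h3 h4
  · exact c12 d enc hne hp hq h1 h2 h3 h4
  · exact c13 d enc hne hp hq h1 h2 h3 h4
  · exact c14 d enc hne hp hq h1 h2 h3 h4
  · exact c12 d enc hne.symm hq hp h3 h4 h1 h2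
  · exact c22 d enc hne hp hq h1 h2 h3 h4
  · exact c23 d enc hne hp hq h1 h2 h3 h4
  · exact c24 d enc hne hp hq h1 h2 h3 h4
  · exact c13 d enc hne.symm hq hp h3 h4 h1 h2
  · exact c23 d enc hne.symm hq hp h3 h4 h1 h2
  · exact c33 d enc hne hp hq h1 h2 h3 h4
  · exact c34 d enc hne hp hq henc hc' h1 h2 h3 h4
  · exact c14 d enc hne.symm hq hp h3 h4 h1 h2
  · exact c24 d enc hne.symm hq hp h3 h4 h1 h2
  · exact c34 d enc hne.symm hq hp henc hc h3 h4 h1 h2
  · exact c44 d enc hne hp hq henc h1 h2 h3 h4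

lemma noconf (henc : ∀ p ∈ LS d, ∀ q ∈ LS d, enc p = enc q → p = q)
    {l l' : Fin k} (hne : l ≠ l') {p q : Loc n k} (hp : p ∈ LS d) (hq : q ∈ LS d)
    (h : (G l).Adj (val d l (sym d enc l p)) (val d l (sym d enc l q)))
    (h' : (G l').Adj (val d l' (sym d enc l' p)) (val d l' (sym d enc l' q))) : False := by
  rcases own d enc hne p with hr | hr
  · have k1 := link_of_adj d (ok_sym d enc hp) (ok_sym d enc hq) hr h
    have k2 := (link_restr d k1).2
    rcases own d enc hne q with hr' | hr'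
    · exact k2 hr'
    · exact noLink d enc henc hne hp hq k1
        (link_of_adj d (ok_sym d enc hq) (ok_sym d enc hp) hr' h'.symm)
  · have k1 := link_of_adj d (ok_sym d enc hp) (ok_sym d enc hq) hr h'
    have k2 := (link_restr d k1).2
    rcases own d enc hne q with hr' | hr'
    · exact noLink d enc henc hne.symm hp hq k1
        (link_of_adj d (ok_sym d enc hq) (ok_sym d enc hp) hr' h.symm)
    · exact k2 hr'

lemma closed {l i : Fin k} (hil : i ≠ l) {b : Fin n} (hb : (((i, b), none) : Loc n k) ∈ LS d)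
    {w : Fin n} (h : (G l).Adj (val d l (sym d enc l ((i, b), none))) w) :
    ∃ q ∈ LS d, val d l (sym d enc l q) = w := by
  have hs : ∀ t, (((l, (d l).s t), none) : Loc n k) ∈ LS d ∧
      val d l (sym d enc l ((l, (d l).s t), none)) = (d l).s t := by
    intro t
    refine ⟨(mem_LS d).2 ((d l).sS t), ?_⟩
    simp [sym, val]
  by_cases hci : (d i).crit
  · by_cases h2 : (d l).crit ∧ i < l
    · have h3 : sym d enc l ((i, b), none) = Sym.f false (enc ((i, b), none)) := by
        simp only [sym, if_neg hil, if_pos hci, if_pos h2]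
      rw [h3] at h
      have := (d l).crit_f h2.1 _ _ _ h
      rw [this]
      exact ⟨_, hs false⟩
    · have h3 : sym d enc l ((i, b), none) = Sym.x i := by
        simp only [sym, if_neg hil, if_pos hci, if_neg h2]
      rw [h3] at h
      have hw := (d l).x_adj i hil _ h
      have hsv : Served d l i := ⟨hci, fun h => hil h.symm, h2⟩
      by_cases hy : (d l).y i ∈ (d l).S
      · refine ⟨((l, (d l).y i), none), (mem_LS d).2 hy, ?_⟩
        rw [hw]
        simp [sym, val]
      · refine ⟨((i, b), some (l, 0)), (mem_LS d).2 (show b ∈ (d i).S from (mem_LS d).1 hb), ?_⟩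
        rw [hw]
        simp only [sym, if_pos hci, if_true, if_pos (And.intro hsv hy), val]
  · by_cases hcl : (d l).crit
    · by_cases hby : b = (d i).y l
      · have h3 : sym d enc l ((i, b), none) = Sym.x i := by
          simp only [sym, if_neg hil, if_neg hci, if_pos hcl, if_pos hby]
        rw [h3] at h
        have hw := (d l).x_adj i hil _ h
        have hsv : Served d i l := ⟨hcl, hil, fun h => hci h.1⟩
        refine ⟨((l, (d l).s false), some (i, 1)), (mem_LS d).2 ((d l).sS false), ?_⟩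
        rw [hw]
        simp [sym, if_pos hcl, if_pos hsv, val]
      · have h3 : sym d enc l ((i, b), none) = Sym.f false (enc ((i, b), none)) := by
          simp only [sym, if_neg hil, if_neg hci, if_pos hcl, if_neg hby]
        rw [h3] at h
        have := (d l).crit_f hcl _ _ _ h
        rw [this]
        exact ⟨_, hs false⟩
    · have h3 : sym d enc l ((i, b), none) = Sym.f (tt d l i b) (enc ((i, b), none)) := by
        simp only [sym, if_neg hil, if_neg hci, if_neg hcl]
      rw [h3] at h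
      rcases (d l).f_adj _ _ _ h with hw | ⟨e, hw⟩
      · rw [hw]
        exact ⟨_, hs _⟩
      · refine ⟨((i, b), some (l, e)), (mem_LS d).2 (show b ∈ (d i).S from (mem_LS d).1 hb), ?_⟩
        rw [hw]
        have hli : l ≠ i := fun h => hil h.symm
        simp [sym, if_neg hci, if_neg hli, hcl, val]

end

end Pool.Agent.helper4.Pack
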