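import Mathlib
import Pool.Agent.helper4.Pack.Design

set_option autoImplicit false
set_option linter.unusedSectionVars false
set_option linter.unusedVariables false

open Finset Classical

namespace Pool.Agent.helper4.Pack

section pigeon

variable {α : Type} [Fintype α]

/-- Elements of large weight. -/
noncomputable def Bj (w : α → ℕ) (n C j : ℕ) : Finset α := univ.filter (fun a => n < C * j * w a)

lemma card_Bj_le {w : α → ℕ} {n K C : ℕ} (hn : 0 < n) (hsum : ∑ a, w a ≤ K * n) (j : ℕ) :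
    (Bj w n C j).card ≤ C * K * j := by
  have h1 : (Bj w n C j).card * n ≤ (C * K * j) * n := by
    calc (Bj w n C j).card * n = ∑ a ∈ Bj w n C j, n := by rw [Finset.sum_const, smul_eq_mul]
      _ ≤ ∑ a ∈ Bj w n C j, C * j * w a :=
          Finset.sum_le_sum fun a ha => (Finset.mem_filter.1 ha).2.le
      _ ≤ ∑ a, C * j * w a := Finset.sum_le_sum_of_subset (Finset.subset_univ _)
      _ = C * j * ∑ a, w a := by rw [Finset.mul_sum]
      _ ≤ C * j * (K * n) := Nat.mul_le_mul_left _ hsum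
      _ = (C * K * j) * n := by ring
  exact Nat.le_of_mul_le_mul_right h1 hn

lemma pigeon_aux {w : α → ℕ} {n K C h : ℕ} (hn : 0 < n) (hK : 0 < K) (hC : 0 < C)
    (hsum : ∑ a, w a ≤ K * n) (i : ℕ)
    (hbad : ∀ i' ≤ i, (2 * h + 2) * (4 * C * K) ^ i' <
      (Bj w n C ((2 * h + 2) * (4 * C * K) ^ i')).card + h) :
    i * n ≤ 4 * C * ∑ a ∈ Bj w n C ((2 * h + 2) * (4 * C * K) ^ i), w a := by
  induction i with
  | zero => simp
  | succ i ih =>
    have ih := ih fun i' hi' => hbad i' (hi'.trans (Nat.le_succ i))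
    have hb := hbad (i + 1) le_rfl
    have hq : (2 * h + 2) * (4 * C * K) ^ (i + 1) =
        4 * (C * K * ((2 * h + 2) * (4 * C * K) ^ i)) := by ring
    have hpow : 1 ≤ (4 * C * K) ^ (i + 1) := Nat.one_le_pow _ _ (by positivity)
    set j := (2 * h + 2) * (4 * C * K) ^ i with hj
    set j' := (2 * h + 2) * (4 * C * K) ^ (i + 1) with hj'
    have hj'h : 2 * h + 2 ≤ j' := by
      rw [hj']; exact Nat.le_mul_of_pos_right _ hpow
    have hbj := card_Bj_le (C := C) hn hsum j
    have hjj' : j ≤ j' := by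
      rw [hq]
      have : 1 * j ≤ (C * K) * j := Nat.mul_le_mul_right _ (Nat.succ_le_of_lt (by positivity))
      omega
    have hsub : Bj w n C j ⊆ Bj w n C j' := by
      intro a ha
      have h1 := (Finset.mem_filter.1 ha).2
      refine Finset.mem_filter.2 ⟨Finset.mem_univ _, lt_of_lt_of_le h1 ?_⟩
      exact Nat.mul_le_mul_right _ (Nat.mul_le_mul_left _ hjj')
    have hdiff : j' ≤ 4 * (Bj w n C j' \ Bj w n C j).card := by
      have := Finset.card_sdiff_add_card_eq_card hsub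
      omega
    have hsumd : j' * n ≤ j' * (4 * C * ∑ a ∈ Bj w n C j' \ Bj w n C j, w a) := by
      calc j' * n ≤ 4 * (Bj w n C j' \ Bj w n C j).card * n := Nat.mul_le_mul_right _ hdiff
        _ = 4 * ∑ a ∈ Bj w n C j' \ Bj w n C j, n := by
            rw [Finset.sum_const, smul_eq_mul]; ring
        _ ≤ 4 * ∑ a ∈ Bj w n C j' \ Bj w n C j, C * j' * w a := by
            refine Nat.mul_le_mul_left _ (Finset.sum_le_sum fun a ha => ?_)
            exact (Finset.mem_filter.1 (Finset.mem_sdiff.1 ha).1).2.le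
        _ = j' * (4 * C * ∑ a ∈ Bj w n C j' \ Bj w n C j, w a) := by
            rw [← Finset.mul_sum]; ring
    have hsumd' := Nat.le_of_mul_le_mul_left hsumd (by omega)
    have hs : ∑ a ∈ Bj w n C j', w a = ∑ a ∈ Bj w n C j' \ Bj w n C j, w a +
        ∑ a ∈ Bj w n C j, w a := (Finset.sum_sdiff hsub).symm
    rw [hs]
    nlinarith

lemma pigeon {K C h : ℕ} (hK : 0 < K) (hC : 0 < C) : ∃ J : ℕ, ∀ (n : ℕ), 0 < n →
    ∀ (β : Type) [Fintype β] (w : β → ℕ), ∑ a, w a ≤ K * n →
    ∃ j, 0 < j ∧ j ≤ J ∧ (Bj w n C j).card + h ≤ j := by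
  refine ⟨(2 * h + 2) * (4 * C * K) ^ (4 * C * K + 1), ?_⟩
  intro n hn β _ w hsum
  by_contra hcon
  push Not at hcon
  have hpos : 0 < 4 * C * K := by positivity
  have := pigeon_aux (h := h) hn hK hC hsum (4 * C * K + 1) (by
    intro i' hi'
    exact hcon _ (by positivity) (Nat.mul_le_mul_left _ (Nat.pow_le_pow_right hpos hi')))
  have h2 : 4 * C * ∑ a ∈ Bj w n C ((2 * h + 2) * (4 * C * K) ^ (4 * C * K + 1)), w a ≤
      4 * C * (K * n) := Nat.mul_le_mul_left _
    ((Finset.sum_le_sum_of_subset (Finset.subset_univ _)).trans hsum)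
  nlinarith

end pigeon

lemma exists_perm {α β : Type} [Fintype α] (s : Finset β) (a b : β → α)
    (ha : ∀ p ∈ s, ∀ q ∈ s, a p = a q → p = q) (hb : ∀ p ∈ s, ∀ q ∈ s, b p = b q → p = q) :
    ∃ σ : Equiv.Perm α, ∀ p ∈ s, σ (a p) = b p := by
  have fa : Function.Injective (fun p : s => a p) := fun p q h =>
    Subtype.ext (ha p p.2 q q.2 h)
  have fb : Function.Injective (fun p : s => b p) := fun p q h =>
    Subtype.ext (hb p p.2 q q.2 h)
  let e : {x // x ∈ Set.range (fun p : s => a p)} ≃ {x // x ∈ Set.range (fun p : s => b p)} :=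
    (Equiv.ofInjective _ fa).symm.trans (Equiv.ofInjective _ fb)
  refine ⟨e.extendSubtype, ?_⟩
  intro p hp
  have h1 : a p ∈ Set.range (fun p : s => a p) := ⟨⟨p, hp⟩, rfl⟩
  rw [Equiv.extendSubtype_apply_of_mem _ _ h1]
  have h2 : (Equiv.ofInjective _ fa).symm ⟨a p, h1⟩ = ⟨p, hp⟩ := by
    rw [Equiv.symm_apply_eq]
    rfl
  simp only [e, Equiv.trans_apply]
  rw [h2]
  rfl

lemma exists_injOn {β : Type} (s : Finset β) (m : ℕ) (hm : 0 < m) (h : s.card ≤ m) :
    ∃ f : β → Fin m, ∀ p ∈ s, ∀ q ∈ s, f p = f q → p = q := by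
  have h1 : Fintype.card s ≤ Fintype.card (Fin m) := by
    rw [Fintype.card_coe, Fintype.card_fin]; exact h
  obtain ⟨e⟩ := Function.Embedding.nonempty_of_card_le h1
  refine ⟨fun p => if hp : p ∈ s then e ⟨p, hp⟩ else ⟨0, hm⟩, ?_⟩
  intro p hp q hq hpq
  simp only [dif_pos hp, dif_pos hq] at hpq
  exact congrArg Subtype.val (e.injective hpq)

end Pool.Agent.helper4.Pack
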