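import Mathlib
import Pool.Agent.helper4.Pack.Pigeon

set_option autoImplicit false
set_option linter.unusedSectionVars false
set_option linter.unusedVariables false

open Finset Classical

namespace Pool.Agent.helper4.Pack

variable {n : ℕ}

lemma val_inj {k R : ℕ} {G : Fin k → SimpleGraph (Fin n)} (d : ∀ l, GData (G l) k R l) {l : Fin k}
    {a b : Sym n k R} (ha : Ok d l a) (hb : Ok d l b)
    (h : val d l a = val d l b) : a = b := by
  have key : ∀ a b : Sym n k R, Ok d l a → Ok d l b → val d l a = val d l b →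
      (a = b ∨ (match a, b with
        | Sym.x _, Sym.sp _ => False
        | Sym.y _, Sym.sp _ => False
        | Sym.y _, Sym.x _ => False
        | Sym.f _ _, Sym.sp _ => False
        | Sym.f _ _, Sym.x _ => False
        | Sym.f _ _, Sym.y _ => False
        | Sym.yy _ _ _, Sym.sp _ => False
        | Sym.yy _ _ _, Sym.x _ => False
        | Sym.yy _ _ _, Sym.y _ => False
        | Sym.f _ _, Sym.yy _ _ _ => False
        | Sym.sp _, Sym.sp _ => False
        | Sym.x _, Sym.x _ => False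
        | Sym.y _, Sym.y _ => False
        | Sym.f _ _, Sym.f _ _ => False
        | Sym.yy _ _ _, Sym.yy _ _ _ => False
        | _, _ => True)) := by
    intro a b ha hb h
    cases a with
    | sp b1 =>
      cases b with
      | sp b2 => exact Or.inl (congrArg Sym.sp h)
      | _ => exact Or.inr trivial
    | x i =>
      cases b with
      | sp b2 => exact absurd (show val d l (Sym.x i) ∈ (d l).S from h ▸ hb) ((d l).x_S i ha)
      | x i2 => exact Or.inl (congrArg Sym.x ((d l).x_inj i ha i2 hb h))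
      | _ => exact Or.inr trivial
    | y i =>
      cases b with
      | sp b2 => exact absurd (show val d l (Sym.y i) ∈ (d l).S from h ▸ hb) ha.2
      | x i2 => exact absurd h.symm ((d l).x_ne_y i2 hb i ha.1)
      | y i2 => exact Or.inl (congrArg Sym.y ((d l).y_inj i ha.1 i2 hb.1 h))
      | _ => exact Or.inr trivial
    | f t r =>
      cases b with
      | sp b2 => exact absurd (show val d l (Sym.f t r) ∈ (d l).S from h ▸ hb) ((d l).f_S t r)
      | x i2 => exact absurd h ((d l).f_x t r i2 hb)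
      | y i2 => exact absurd h ((d l).f_y t r i2 hb.1)
      | f t' r' =>
        obtain ⟨h1, h2⟩ := (d l).f_inj _ _ _ _ h
        exact Or.inl (by rw [h1, h2])
      | yy t' r' e => exact absurd h ((d l).f_yy _ _ _ _ _)
    | yy t r e =>
      cases b with
      | sp b2 => exact absurd (show val d l (Sym.yy t r e) ∈ (d l).S from h ▸ hb) ((d l).yy_S t r e)
      | x i2 => exact absurd h ((d l).yy_x t r e i2 hb)
      | y i2 => exact absurd h ((d l).yy_y t r e i2 hb.1)
      | f t' r' => exact Or.inr trivial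
      | yy t' r' e' =>
        obtain ⟨h1, h2, h3⟩ := (d l).yy_inj _ _ _ _ _ _ h
        exact Or.inl (by rw [h1, h2, h3])
  have k1 := key a b ha hb h
  have k2 := key b a hb ha h.symm
  rcases k1 with k1 | k1
  · exact k1
  rcases k2 with k2 | k2
  · exact k2.symm
  exfalso
  cases a <;> cases b <;> first | exact k1 | exact k2

/-- Remove all edges at `W`. -/
def trim (G : SimpleGraph (Fin n)) (W : Finset (Fin n)) : SimpleGraph (Fin n) where
  Adj u v := G.Adj u v ∧ u ∉ W ∧ v ∉ W
  symm := ⟨fun _ _ h => ⟨h.1.symm, h.2.2, h.2.1⟩⟩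
  loopless := ⟨fun _ h => G.loopless.irrefl _ h.1⟩

lemma dg_trim_le (G : SimpleGraph (Fin n)) (W : Finset (Fin n)) (v : Fin n) :
    dg (trim G W) v ≤ dg G v :=
  Finset.card_le_card fun w hw => mem_Nb.2 (mem_Nb.1 hw).1

lemma dg_trim_mem {G : SimpleGraph (Fin n)} {W : Finset (Fin n)} {v : Fin n} (hv : v ∈ W) :
    dg (trim G W) v = 0 := by
  unfold dg
  rw [Finset.card_eq_zero, Finset.eq_empty_iff_forall_notMem]
  intro w hw
  exact (mem_Nb.1 hw).2.1 hv

/-- The union of the first images. -/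
def uni {k : ℕ} (G : Fin k → SimpleGraph (Fin n)) (σ : Fin k → Equiv.Perm (Fin n)) (m : ℕ) :
    SimpleGraph (Fin n) where
  Adj a b := ∃ i : Fin k, (i : ℕ) < m ∧ (G i).Adj ((σ i).symm a) ((σ i).symm b)
  symm := ⟨fun _ _ ⟨i, h1, h2⟩ => ⟨i, h1, h2.symm⟩⟩
  loopless := ⟨fun _ ⟨i, _, h2⟩ => (G i).loopless.irrefl _ h2⟩

lemma dg_uni_le {k : ℕ} (G : Fin k → SimpleGraph (Fin n)) (σ : Fin k → Equiv.Perm (Fin n))
    (m : ℕ) (a : Fin n) : dg (uni G σ m) a ≤ ∑ i : Fin k, dg (G i) ((σ i).symm a) := by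
  have : Nb (uni G σ m) a ⊆ univ.biUnion
      (fun i : Fin k => (Nb (G i) ((σ i).symm a)).image (σ i)) := by
    intro b hb
    obtain ⟨i, h1, h2⟩ := mem_Nb.1 hb
    refine Finset.mem_biUnion.2 ⟨i, Finset.mem_univ _, Finset.mem_image.2
      ⟨(σ i).symm b, mem_Nb.2 h2, by simp⟩⟩
  refine (Finset.card_le_card this).trans (Finset.card_biUnion_le.trans ?_)
  exact Finset.sum_le_sum fun i _ => Finset.card_image_le

lemma sum_dg_uni_le {k M : ℕ} (G : Fin k → SimpleGraph (Fin n))
    (σ : Fin k → Equiv.Perm (Fin n)) (m : ℕ) (h : ∀ i, ∑ v, dg (G i) v ≤ M) :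
    ∑ a, dg (uni G σ m) a ≤ k * M := by
  calc ∑ a, dg (uni G σ m) a ≤ ∑ a, ∑ i : Fin k, dg (G i) ((σ i).symm a) :=
        Finset.sum_le_sum fun a _ => dg_uni_le G σ m a
    _ = ∑ i : Fin k, ∑ a, dg (G i) ((σ i).symm a) := Finset.sum_comm
    _ = ∑ i : Fin k, ∑ v, dg (G i) v := by
        refine Finset.sum_congr rfl fun i _ => ?_
        exact Equiv.sum_comp (σ i).symm (fun v => dg (G i) v)
    _ ≤ ∑ _i : Fin k, M := Finset.sum_le_sum fun i _ => h i
    _ = k * M := by rw [Finset.sum_const, Finset.card_univ, Fintype.card_fin, smul_eq_mul]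

/-- Iterating the bulk lemma. -/
lemma iterate {k : ℕ} (G : Fin k → SimpleGraph (Fin n)) {β : Type} (L : Finset β)
    (τ : Fin k → β → Fin n) (ι : β → Fin n) (δ₁ q : ℕ)
    (hτ : ∀ l, ∀ a ∈ L, ∀ b ∈ L, τ l a = τ l b → a = b)
    (hι : ∀ a ∈ L, ∀ b ∈ L, ι a = ι b → a = b)
    (hconf : ∀ l l', l ≠ l' → ∀ a ∈ L, ∀ b ∈ L, (G l).Adj (τ l a) (τ l b) →
      ¬ (G l').Adj (τ l' a) (τ l' b))
    (hsum : ∀ l, ∑ v, dg (G l) v ≤ 2 * n)
    (hdeg : ∀ l v, dg (G l) v ≤ δ₁)
    (h0 : 0 < n)
    (hL : L.card ≤ q)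
    (hδ : 136 * (16 * (k + 1) * (k * δ₁)) ≤ n)
    (hq : 16 * (q * (k * δ₁)) ≤ n) (hq' : 16 * q ≤ n)
    (hD : 136 * (16 * (k + 1)) ≤ n) :
    ∀ m ≤ k, ∃ σ : Fin k → Equiv.Perm (Fin n), (∀ l, ∀ a ∈ L, σ l (τ l a) = ι a) ∧
      ∀ l l' : Fin k, l < l' → (l' : ℕ) < m → ∀ u v, (G l').Adj u v →
        ¬ (G l).Adj ((σ l).symm (σ l' u)) ((σ l).symm (σ l' v)) := by
  intro m
  induction m with
  | zero =>
    intro _
    have := fun l => exists_perm L (τ l) ι (hτ l) hι
    choose σ hσ using this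
    exact ⟨σ, hσ, fun l l' _ h => absurd h (by omega)⟩
  | succ m ih =>
    intro hm
    obtain ⟨σ, hσ, hpack⟩ := ih (by omega)
    set l : Fin k := ⟨m, by omega⟩ with hl
    set H := uni G σ m with hH
    have hdegH : ∀ a, dg H a ≤ k * δ₁ := by
      intro a
      refine (dg_uni_le G σ m a).trans ?_
      refine (Finset.sum_le_sum fun i _ => hdeg i ((σ i).symm a)).trans ?_
      rw [Finset.sum_const, Finset.card_univ, Fintype.card_fin, smul_eq_mul]
    have hk : 0 < k := by omega
    have hdk : δ₁ ≤ k * δ₁ := Nat.le_mul_of_pos_left _ hk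
    have hsumH : ∑ a, dg H a ≤ k * (2 * n) := sum_dg_uni_le G σ m hsum
    have hP : (L.image (τ l)).card ≤ q := Finset.card_image_le.trans hL
    have hyp : BulkHyp H (G l) (L.image (τ l)) (σ l) (16 * (k + 1)) (k * δ₁) := by
      refine ⟨h0, ?_, ?_, hsum l, hdegH, fun v => (hdeg l v).trans hdk, ?_, ?_, ?_, ?_, ?_, ?_⟩
      · have := card_high_le (D := 16 * (k + 1)) hsumH
        have h2 : 2 * (k + 1) * (8 * (univ.filter (fun v => 16 * (k + 1) ≤ dg H v)).card) ≤
            2 * (k + 1) * n := by nlinarith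
        exact Nat.le_of_mul_le_mul_left h2 (by positivity)
      · have := card_high_le (D := 16 * (k + 1)) (hsum l)
        have h2 : 2 * (k + 1) * (8 * (univ.filter (fun v => 16 * (k + 1) ≤ dg (G l) v)).card) ≤
            2 * (k + 1) * n := by nlinarith
        exact Nat.le_of_mul_le_mul_left h2 (by positivity)
      · exact hδ
      · have : 1 * (k * δ₁) ≤ 16 * (k + 1) * (k * δ₁) :=
          Nat.mul_le_mul_right _ (by omega)
        omega
      · omega
      · have h1 : ∑ p ∈ L.image (τ l), dg H (σ l p) ≤ (L.image (τ l)).card * (k * δ₁) := by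
          refine (Finset.sum_le_sum fun p _ => hdegH (σ l p)).trans ?_
          rw [Finset.sum_const, smul_eq_mul]
        have h2 : (L.image (τ l)).card * (k * δ₁) ≤ q * (k * δ₁) := Nat.mul_le_mul_right _ hP
        omega
      · have h1 : ∑ p ∈ L.image (τ l), dg (G l) p ≤ (L.image (τ l)).card * (k * δ₁) := by
          refine (Finset.sum_le_sum fun p _ => (hdeg l p).trans hdk).trans ?_
          rw [Finset.sum_const, smul_eq_mul]
        have h2 : (L.image (τ l)).card * (k * δ₁) ≤ q * (k * δ₁) := Nat.mul_le_mul_right _ hP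
        omega
      · intro u hu v hv huv hH'
        obtain ⟨a, ha, rfl⟩ := Finset.mem_image.1 hu
        obtain ⟨b, hb, rfl⟩ := Finset.mem_image.1 hv
        obtain ⟨i, hi, hi2⟩ := hH'
        rw [hσ l a ha, hσ l b hb] at hi2
        have e1 : (σ i).symm (ι a) = τ i a := by rw [Equiv.symm_apply_eq, hσ i a ha]
        have e2 : (σ i).symm (ι b) = τ i b := by rw [Equiv.symm_apply_eq, hσ i b hb]
        rw [e1, e2] at hi2
        have hne : i ≠ l := by
          rintro rfl
          exact absurd hi (lt_irrefl _)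
        exact hconf i l hne a ha b hb hi2 huv
    obtain ⟨ρ, hρ1, hρ2⟩ := bulk hyp hD
    refine ⟨Function.update σ l ρ, ?_, ?_⟩
    · intro i a ha
      by_cases hi : i = l
      · subst hi
        rw [Function.update_self, hρ1 _ (Finset.mem_image_of_mem _ ha), hσ _ a ha]
      · rw [Function.update_of_ne hi, hσ i a ha]
    · intro i i' hii' hi' u v huv
      have hil : i ≠ l := by
        rintro rfl
        have : (m : ℕ) < (i' : ℕ) := hii'
        omega
      rw [Function.update_of_ne hil]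
      by_cases hi'l : i' = l
      · subst hi'l
        rw [Function.update_self]
        intro hadj
        exact hρ2 u v huv ⟨i, hii', hadj⟩
      · rw [Function.update_of_ne hi'l]
        refine hpack i i' hii' ?_ u v huv
        have : (i' : ℕ) ≠ m := fun h => hi'l (Fin.ext h)
        omega

end Pool.Agent.helper4.Pack
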