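import Mathlib
import Pool.Agent.helper4.Pack.Assemble

set_option autoImplicit false
set_option linter.unusedSectionVars false
set_option linter.unusedVariables false

open Finset Classical

namespace Pool.Agent.helper4.Pack

lemma split_bound {a b c d e n : ℕ} (h : a + b + c + d + e + 1 ≤ n) :
    a ≤ n ∧ b ≤ n ∧ c ≤ n ∧ d ≤ n ∧ e ≤ n ∧ 0 < n := by omega

/-- The packing theorem, in terms of degrees. -/
theorem packing (k : ℕ) : ∃ N : ℕ, ∀ n, N ≤ n → ∀ G : Fin k → SimpleGraph (Fin n),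
    (∀ l, ∑ v, dg (G l) v + 2 * k ≤ 2 * n) →
    ∃ σ : Fin k → Equiv.Perm (Fin n), ∀ l l', l ≠ l' → ∀ u v, (G l').Adj u v →
      ¬ (G l).Adj ((σ l).symm (σ l' u)) ((σ l).symm (σ l' v)) := by
  rcases Nat.eq_zero_or_pos k with rfl | hk
  · exact ⟨0, fun n _ G _ => ⟨fun l => l.elim0, fun l => l.elim0⟩⟩
  obtain ⟨C, hC1, hC2, hCpos⟩ : ∃ C : ℕ, 136 * 16 * (k + 1) * k ≤ C ∧
      16 * (k * (3 * k + 1)) ≤ C ∧ 0 < C :=
    ⟨136 * 16 * (k + 1) * k + 16 * (k * (3 * k + 1)) + 1, by omega, by omega, by omega⟩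
  obtain ⟨J, hJ⟩ := pigeon (K := 2 * k) (C := C) (h := 2 * k) (by omega) hCpos
  obtain ⟨N₁, Bd, hcl⟩ := classify k (J * (1 + 3 * k) + 2) J (by omega)
  refine ⟨N₁ + C * J * Bd + C * J + 136 * (16 * (k + 1)) + 16 * (J * (1 + 3 * k)) + 1, ?_⟩
  intro n hn G hG
  obtain ⟨hnN, hnB, hnC, hn136, hn16, h0⟩ := split_bound hn
  clear hn
  have hGs : ∀ l, ∑ v, dg (G l) v ≤ 2 * n := fun l => by have := hG l; omega
  -- the threshold
  obtain ⟨j, hj0, hjJ, hjB⟩ := hJ n h0 (Fin k × Fin n) (fun p => dg (G p.1) p.2) (by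
    rw [Fintype.sum_prod_type]
    refine (Finset.sum_le_sum fun i _ => hGs i).trans ?_
    rw [Finset.sum_const, Finset.card_univ, Fintype.card_fin, smul_eq_mul]
    exact le_of_eq (by ring))
  set S₀ : Fin k → Finset (Fin n) := fun l => univ.filter (fun v => n < C * j * dg (G l) v)
    with hS₀
  have hS₀sum : ∑ l, (S₀ l).card ≤
      (Bj (fun p : Fin k × Fin n => dg (G p.1) p.2) n C j).card := by
    have : (Bj (fun p : Fin k × Fin n => dg (G p.1) p.2) n C j) =
        (univ.sigma S₀).image (fun p => (p.1, p.2)) := by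
      ext ⟨a, b⟩
      simp [Bj, hS₀]
    rw [this, Finset.card_image_of_injective _ (by
      rintro ⟨a, b⟩ ⟨a', b'⟩ h
      simp only [Prod.mk.injEq] at h
      obtain ⟨rfl, rfl⟩ := h
      rfl), Finset.card_sigma]
  have hS₀J : ∀ l, (S₀ l).card ≤ J := by
    intro l
    have := Finset.single_le_sum (f := fun l => (S₀ l).card) (fun i _ => Nat.zero_le _)
      (Finset.mem_univ l)
    omega
  have hCjJ : C * j ≤ C * J := Nat.mul_le_mul_left _ hjJ
  have hS₀d : ∀ l, ∀ v ∈ S₀ l, 2 ≤ dg (G l) v := by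
    intro l v hv
    have h1 : n < C * j * dg (G l) v := (Finset.mem_filter.1 hv).2
    by_contra hlt
    have h2 : dg (G l) v ≤ 1 := by omega
    have h3 : C * j * dg (G l) v ≤ C * j * 1 := Nat.mul_le_mul_left _ h2
    omega
  have hdd := fun l => hcl n hnN (G l) (hG l) (S₀ l) (hS₀J l) (hS₀d l) l
  choose d hdS hdc using hdd
  -- degrees outside the special set
  have hsmall : ∀ l, ∀ v ∉ (d l).S, C * j * dg (G l) v ≤ n := by
    intro l v hv
    rcases hdc l with ⟨h1, h2⟩ | ⟨h1, h2⟩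
    · by_contra hlt
      exact hv (h2 (Finset.mem_filter.2 ⟨Finset.mem_univ _, not_le.1 hlt⟩))
    · have h3 := h2 v hv
      have h4 : C * j * dg (G l) v ≤ C * J * Bd := Nat.mul_le_mul hCjJ h3
      omega
  -- the number of locations
  have hLS : (LS d).card ≤ j * (1 + 3 * k) := by
    have h1 : LS d = (univ.sigma fun l => (d l).S).image (fun p => (p.1, p.2)) ×ˢ
        (univ : Finset (Option (Fin k × Fin 3))) := by
      ext ⟨⟨a, b⟩, o⟩
      simp [LS]
    rw [h1, Finset.card_product]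
    have h2 : (univ : Finset (Option (Fin k × Fin 3))).card = 1 + 3 * k := by
      rw [Finset.card_univ, Fintype.card_option, Fintype.card_prod, Fintype.card_fin,
        Fintype.card_fin]
      ring
    rw [h2]
    refine Nat.mul_le_mul_right _ (Finset.card_image_le.trans ?_)
    rw [Finset.card_sigma]
    refine (Finset.sum_le_sum fun l _ => hdS l).trans ?_
    rw [Finset.sum_add_distrib, Finset.sum_const, Finset.card_univ, Fintype.card_fin, smul_eq_mul]
    omega
  have hLSJ : (LS d).card ≤ J * (1 + 3 * k) := hLS.trans (Nat.mul_le_mul_right _ hjJ)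
  obtain ⟨enc, henc⟩ := exists_injOn (LS d) (J * (1 + 3 * k) + 2) (by omega) (by omega)
  obtain ⟨ι, hι⟩ := exists_injOn (LS d) n h0 (by omega)
  set τ : Fin k → Loc n k → Fin n := fun l p => val d l (sym d enc l p) with hτdef
  have hτ : ∀ l, ∀ a ∈ LS d, ∀ b ∈ LS d, τ l a = τ l b → a = b := by
    intro l a ha b hb hab
    exact sym_inj d enc henc ha hb (val_inj d (ok_sym d enc ha) (ok_sym d enc hb) hab)
  set W : Fin k → Finset (Fin n) := fun l => ((LS d).filter (fun p => p.2 = none)).image (τ l)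
    with hW
  have hSW : ∀ l, ∀ b ∈ (d l).S, b ∈ W l := by
    intro l b hb
    refine Finset.mem_image.2 ⟨((l, b), none), Finset.mem_filter.2 ⟨(mem_LS d).2 hb, rfl⟩, ?_⟩
    simp [hτdef, sym, val]
  set G' : Fin k → SimpleGraph (Fin n) := fun l => trim (G l) (W l) with hG'
  have hG's : ∀ l, ∑ v, dg (G' l) v ≤ 2 * n := fun l =>
    (Finset.sum_le_sum fun v _ => dg_trim_le (G l) (W l) v).trans (hGs l)
  have hCj : 0 < C * j := by positivity
  have hG'd : ∀ l v, dg (G' l) v ≤ n / (C * j) := by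
    intro l v
    rw [Nat.le_div_iff_mul_le hCj]
    by_cases hv : v ∈ W l
    · rw [hG', dg_trim_mem hv]; simp
    · have h1 := hsmall l v (fun h => hv (hSW l v h))
      have h2 := dg_trim_le (G l) (W l) v
      calc dg (G' l) v * (C * j) ≤ dg (G l) v * (C * j) := Nat.mul_le_mul_right _ h2
        _ = C * j * dg (G l) v := by ring
        _ ≤ n := h1
  have hdiv : n / (C * j) * (C * j) ≤ n := Nat.div_mul_le_self n (C * j)
  obtain ⟨σ, hσ, hpack⟩ := iterate G' (LS d) τ ι (n / (C * j)) (j * (1 + 3 * k)) hτ hι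
    (fun l l' hne a ha b hb h h' => noconf d enc henc hne ha hb h.1 h'.1)
    hG's hG'd h0 hLS
    (by
      refine le_trans ?_ hdiv
      have h2 : C ≤ C * j := Nat.le_mul_of_pos_right _ hj0
      have h3 : n / (C * j) * (136 * 16 * (k + 1) * k) ≤ n / (C * j) * (C * j) :=
        Nat.mul_le_mul_left _ (le_trans hC1 h2)
      have h1 : 136 * (16 * (k + 1) * (k * (n / (C * j)))) =
          n / (C * j) * (136 * 16 * (k + 1) * k) := by ring
      rw [h1]
      exact h3)
    (by
      refine le_trans ?_ hdiv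
      have h1 : 16 * (j * (1 + 3 * k) * (k * (n / (C * j)))) =
          n / (C * j) * ((16 * (k * (3 * k + 1))) * j) := by ring
      rw [h1]
      exact Nat.mul_le_mul_left _ (Nat.mul_le_mul_right _ hC2))
    ((Nat.mul_le_mul_left 16 (Nat.mul_le_mul_right _ hjJ)).trans hn16)
    hn136 k le_rfl
  -- the final check
  have hloc : ∀ l, ∀ a ∈ LS d, (σ l).symm (ι a) = τ l a := by
    intro l a ha
    rw [Equiv.symm_apply_eq, hσ l a ha]
  -- an edge at the location of a special vertex
  have hA : ∀ l l', l ≠ l' → ∀ p ∈ LS d, p.2 = none → ∀ u v u' v', σ l u = σ l' u' →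
      σ l v = σ l' v' → σ l u = ι p → (G l).Adj u v → (G l').Adj u' v' → False := by
    intro l l' hne p hp hp2 u v u' v' huu' hvv' hup huv hu'v'
    obtain ⟨⟨i, b⟩, o⟩ := p
    simp only at hp2
    subst hp2
    have hu : u = τ l ((i, b), none) := by rw [← hloc l _ hp, ← hup]; simp
    have hu' : u' = τ l' ((i, b), none) := by rw [← hloc l' _ hp, ← hup, huu']; simp
    by_cases hil : i = l
    · have hil' : i ≠ l' := fun h => hne (hil.symm.trans h)
      rw [hu'] at hu'v'
      obtain ⟨q, hq, hqv⟩ := closed d enc hil' hp hu'v'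
      have hv : v = τ l q := by
        have h1 : σ l v = ι q := by
          rw [hvv', ← hσ l' q hq]
          exact congrArg _ hqv.symm
        rw [← hloc l q hq, ← h1]; simp
      rw [hu, hv] at huv
      rw [← hqv] at hu'v'
      exact noconf d enc henc hne hp hq huv hu'v'
    · rw [hu] at huv
      obtain ⟨q, hq, hqv⟩ := closed d enc hil hp huv
      have hv' : v' = τ l' q := by
        have h1 : σ l' v' = ι q := by
          rw [← hvv', ← hσ l q hq]
          exact congrArg _ hqv.symm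
        rw [← hloc l' q hq, ← h1]; simp
      rw [hu', hv'] at hu'v'
      rw [← hqv] at huv
      exact noconf d enc henc hne hp hq huv hu'v'
  have hfin : ∀ l l', l < l' → ∀ u v u' v', σ l u = σ l' u' → σ l v = σ l' v' →
      (G l).Adj u v → (G l').Adj u' v' → False := by
    intro l l' hlt u v u' v' huu' hvv' huv hu'v'
    by_cases h1 : ∃ p ∈ LS d, p.2 = none ∧ σ l u = ι p
    · obtain ⟨p, hp, hp2, hup⟩ := h1
      exact hA l l' hlt.ne p hp hp2 u v u' v' huu' hvv' hup huv hu'v'
    by_cases h2 : ∃ p ∈ LS d, p.2 = none ∧ σ l v = ι p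
    · obtain ⟨p, hp, hp2, hup⟩ := h2
      exact hA l l' hlt.ne p hp hp2 v u v' u' hvv' huu' hup huv.symm hu'v'.symm
    have hWloc : ∀ i w, w ∈ W i → ∃ p ∈ LS d, p.2 = none ∧ σ i w = ι p := by
      intro i w hw
      obtain ⟨p, hp, rfl⟩ := Finset.mem_image.1 hw
      obtain ⟨hp1, hp2⟩ := Finset.mem_filter.1 hp
      exact ⟨p, hp1, hp2, hσ i p hp1⟩
    have e1 : (G' l).Adj u v := ⟨huv, fun h => h1 (hWloc l u h), fun h => h2 (hWloc l v h)⟩
    have e2 : (G' l').Adj u' v' := ⟨hu'v', fun h => h1 (by rw [huu']; exact hWloc l' u' h),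
      fun h => h2 (by rw [hvv']; exact hWloc l' v' h)⟩
    have e3 := hpack l l' hlt l'.2 u' v' e2
    rw [← huu', ← hvv'] at e3
    simp only [Equiv.symm_apply_apply] at e3
    exact e3 e1
  refine ⟨σ, ?_⟩
  intro l l' hne u v huv hadj
  rcases lt_or_gt_of_ne hne with hlt | hlt
  · exact hfin l l' hlt _ _ u v (by simp) (by simp) hadj huv
  · exact hfin l' l hlt u v _ _ (by simp) (by simp) huv hadj

lemma sum_dg_eq {n : ℕ} (G : SimpleGraph (Fin n)) : ∑ v, dg G v = 2 * Nat.card G.edgeSet := by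
  have h1 : ∀ v, dg G v = G.degree v := by
    intro v
    unfold dg Nb
    rw [← SimpleGraph.card_neighborFinset_eq_degree]
    congr 1
    ext w
    simp
  rw [Finset.sum_congr rfl fun v _ => h1 v, SimpleGraph.sum_degrees_eq_twice_card_edges]
  congr 1
  rw [Nat.card_eq_fintype_card, SimpleGraph.edgeFinset_card]

end Pool.Agent.helper4.Pack
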